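import Pool.Agent.H63.SEP.Stmts3

/-!
Module RIG: all captured functions are branches.
-/

set_option linter.unusedVariables false
set_option synthInstance.maxSize 100000

namespace SW.SEP

open SW

section
variable {M : Type} [SetStr M] [ZF M]

theorem mk_fin4 {F : FPoset M} {G : M → Prop} (a b c d : M) :
    (fun i => mk F G ((![a, b, c, d] : Fin 4 → M) i)) =
      ![mk F G a, mk F G b, mk F G c, mk F G d] := by
  funext i; fin_cases i <;> rfl

theorem mk_fin3 {F : FPoset M} {G : M → Prop} (a b c : M) :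
    (fun i => mk F G ((![a, b, c] : Fin 3 → M) i)) = ![mk F G a, mk F G b, mk F G c] := by
  funext i; fin_cases i <;> rfl

end

theorem temb_emb' {M : Type} [SetStr M] [ZF M] {F : FPoset M} {G : M → Prop} (hG : Gen F G) :
    TEmb (emb F G) where
  inj x y h := ((embF hG).inj x y).1 h
  mem x y := (embF hG).mem x y
  tr z x h := by
    obtain ⟨y, _, hy⟩ := (embF hG).trans z x h
    exact ⟨y, hy⟩

/-- a common upper bound of two natural numbers -/
theorem om_ub {M : Type} [SetStr M] [ZF M] {n m : M} (hn : E n om) (hm : E m om) :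
    ∃ k, E k om ∧ Sub n k ∧ Sub m k := by
  rcases (Ord_nat hn).tri (Ord_nat hm) with h | h | h
  · exact ⟨m, hm, (Ord_nat hm).1 n h, Sub.refl m⟩
  · exact ⟨m, hm, h ▸ Sub.refl _, Sub.refl m⟩
  · exact ⟨n, hn, Sub.refl n, (Ord_nat hn).1 m h⟩

theorem res_mono {M : Type} [SetStr M] [ZF M] {u n m : M} (h : Sub n m) :
    Sub (res u n) (res u m) := fun z hz => by
  obtain ⟨h1, x, y, hx, rfl⟩ := mem_res.1 hz
  exact mem_res.2 ⟨h1, x, y, h x hx, rfl⟩

section
variable {M : Type} [SetStr M] [ZF M] [Countable M]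

theorem FS4_df (I : M) (Q : ∀ (N : Type) [SetStr N], (Fin 4 → N) → Prop) [UDf Q] :
    Df (fun w : Fin 5 → M => FS (PF I) Q (w 0) ![w 1, w 2, w 3, w 4]) := by
  refine ((semF (PF I)).df Q).congr fun w => ?_
  have : (![w 1, w 2, w 3, w 4] : Fin 4 → M) = (fun i => w i.succ) := by
    funext i; fin_cases i <;> rfl
  rw [this]

theorem FS3_df (I : M) (Q : ∀ (N : Type) [SetStr N], (Fin 3 → N) → Prop) [UDf Q] :
    Df (fun w : Fin 4 → M => FS (PF I) Q (w 0) ![w 1, w 2, w 3]) := by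
  refine ((semF (PF I)).df Q).congr fun w => ?_
  have : (![w 1, w 2, w 3] : Fin 3 → M) = (fun i => w i.succ) := by
    funext i; fin_cases i <;> rfl
  rw [this]

end

/-- functions, in arbitrary structures -/
def QFn (N : Type) [SetStr N] (v : Fin 3 → N) : Prop := IsFunction (v 0) (v 1) (v 2)

instance QFn_u : UDf QFn := by unfold QFn IsFunction; infer_instance

theorem QFn_iff {N : Type} [SetStr N] [ZF N] (u a b : N) : QFn N ![u, a, b] ↔ Fnc a b u := by
  unfold QFn IsFunction Fnc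
  simp only [Matrix.cons_val_zero, Matrix.cons_val_one, Matrix.cons_val_two, Matrix.head_cons,
    Matrix.tail_cons, isOP_iff, pairIn_iff]
  constructor
  · rintro ⟨h1, h2⟩
    refine ⟨h1, fun x hx => ?_, fun x y y' h3 h4 => ?_⟩
    · obtain ⟨y, hy, _⟩ := h2 x hx
      exact ⟨y, hy⟩
    · obtain ⟨x', y0, hx', hy0, he⟩ := h1 _ h3
      rw [opair_inj] at he
      obtain ⟨rfl, rfl⟩ := he
      obtain ⟨y1, hy1, h5⟩ := h2 x hx'
      rw [h5 y h3, h5 y' h4]
  · rintro ⟨h1, h2, h3⟩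
    refine ⟨h1, fun x hx => ?_⟩
    obtain ⟨y, hy⟩ := h2 x hx
    exact ⟨y, hy, fun y' hy' => h3 x y' y hy' hy⟩

theorem sep_rig (hACX : ACXStmt) (hATM : ATMStmt) (hPSF : PSFStmt) (hSQF : SQFStmt)
    (hTEF : TEFStmt) (hTEG : TEGStmt) (hRGM : RGMStmt) (hGGX : GGXStmt) (hUQX : UQXStmt)
    (hGB1 : GB1Stmt) (hGB2 : GB2Stmt) : RIGStmt := by
  intro M _ _ _ I G hI hG _ u hu hcap
  by_contra hno
  have hno' : ∀ e, E e I → u ≠ Br (gg I G) (emb (PF I) G e) := fun e he h => hno ⟨e, he, h⟩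
  obtain ⟨u', rfl⟩ : ∃ u', mk (PF I) G u' = u := Quot.exists_rep u
  -- the key facts in every extension
  have hAT := hATM M
  have hPS := hPSF M
  have hlv : ∀ (G : M → Prop), Gen (PF I) G → ∀ [ZFC (Ext (PF I) G)], ∀ (e p0 : M)
      (w : Ext (PF I) G), G p0 → E (lV (emb (PF I) G e) w) (emb (PF I) G p0) →
        ∃ v, w = emb (PF I) G v ∧ E (lV e v) p0 := by
    intro G hG _ e p0 w hp0 hw
    have hT := hTEF _ _ (emb (PF I) G) (temb_emb' hG)
    obtain ⟨a, ha, hea⟩ := hT.mem'.1 hw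
    have hpI := mem_PS.1 (hG.sub p0 hp0)
    rcases hpI.1.2 a ha with ⟨s, τ, b, hs, hτ, hb, rfl⟩ | ⟨e', v, he', hv, rfl⟩ |
      ⟨e', z', j, he', hz', hj, rfl⟩
    · exfalso
      rw [hT.gR] at hea
      exact (hATM _).RV hea.symm
    · rw [hT.lV, (hATM _).VV] at hea
      obtain ⟨h1, rfl⟩ := hea
      have h2 := (temb_emb' hG).inj _ _ h1
      subst h2
      exact ⟨v, rfl, ha⟩
    · exfalso
      rw [hT.lF] at hea
      exact (hATM _).VF hea
  -- transfer of `QNbr`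
  have hbr : ∀ (G : M → Prop), Gen (PF I) G → ∀ [ZFC (Ext (PF I) G)], ∀ (e : M)
      (z : Ext (PF I) G), E z (Br (gg I G) (emb (PF I) G e)) ↔ ∃ p w, E p (gg I G) ∧
        E (lV (emb (PF I) G e) w) p ∧ E z w := by
    intro G hG _ e z
    have hgg := hGGX M I G hI hG
    have hT := hTEF _ _ (emb (PF I) G) (temb_emb' hG)
    constructor
    · intro h
      obtain ⟨p, v, z0, hp, hv, hz0, rfl⟩ := hgg.br.1 h
      refine ⟨emb _ G p, emb _ G v, hgg.gg.2 ⟨p, hp, rfl⟩, ?_, (hT.mem').2 ⟨z0, hz0, rfl⟩⟩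
      rw [← hT.lV]
      exact hT.mem'.2 ⟨_, hv, rfl⟩
    · rintro ⟨p, w, hp, hw, hz⟩
      obtain ⟨p0, hp0, rfl⟩ := hgg.gg.1 hp
      obtain ⟨v, rfl, ha⟩ := hlv G hG e p0 w hp0 hw
      obtain ⟨z0, hz0, rfl⟩ := hT.mem'.1 hz
      exact hgg.br.2 ⟨p0, v, z0, hp0, ha, hz0, rfl⟩
  -- the conditions in `G`
  have hT := hTEF _ _ (emb (PF I) G) (temb_emb' hG)
  obtain ⟨p1, hp1, hF1⟩ := ((semF (PF I)).truth QFn G hG ![u', chk (PF I) om, chk (PF I) LL]).1
    (by
      rw [mk_fin3]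
      show QFn _ ![mk (PF I) G u', emb (PF I) G om, emb (PF I) G LL]
      rw [QFn_iff, hT.om, hT.LL]; exact hu)
  obtain ⟨p2, hp2, hF2⟩ := ((semF (PF I)).truth QPrd G hG ![Gnm (PF I), u', chk (PF I) BS]).1
    (by
      rw [mk_fin3]
      exact ((hUQX _).2.2.2.1 _ _ _).2 hcap)
  obtain ⟨p3, hp3, hF3⟩ := ((semF (PF I)).truth QNbr G hG ![Gnm (PF I), u', chk (PF I) I]).1
    (by
      rw [mk_fin3]
      refine ((hUQX _).2.2.2.2 _ _ _).2 fun e he => ?_
      obtain ⟨e0, he0, rfl⟩ := hT.mem'.1 he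
      by_contra hcon
      refine hno' e0 he0 (ext fun z => ?_)
      rw [hbr G hG e0 z]
      by_contra h
      exact hcon ⟨z, h⟩)
  obtain ⟨p4, hp4, h41, h42⟩ := hG.dir p1 p2 hp1 hp2
  obtain ⟨p0, hp0, h04, h03⟩ := hG.dir p4 p3 hp4 hp3
  have hp0I := hG.sub p0 hp0
  -- facts in extensions by filters which contain `p0`
  have hup : ∀ G', Gen (PF I) G' → ∀ p q : M, G' p → Sub q p → E q (PS I) → G' q :=
    fun G' hG' p q hp hqp hq => hG'.up p q hp hq hqp
  have hfn : ∀ G', Gen (PF I) G' → G' p0 → ∀ [ZFC (Ext (PF I) G')],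
      Fnc om LL (mk (PF I) G' u') := by
    intro G' hG' h0 _
    have hT := hTEF _ _ (emb (PF I) G') (temb_emb' hG')
    have h1 := hF1 G' hG' (hup G' hG' p0 p1 h0 (Sub.trans h41 h04) (hG.sub _ hp1))
    rw [mk_fin3] at h1
    have h2 := (QFn_iff (mk (PF I) G' u') (emb (PF I) G' om) (emb (PF I) G' LL)).1 h1
    rwa [hT.om, hT.LL] at h2
  have hpr : ∀ G', Gen (PF I) G' → G' p0 → ∀ [ZFC (Ext (PF I) G')],
      Prd (gg I G') (emb (PF I) G' BS) (mk (PF I) G' u') := by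
    intro G' hG' h0 _
    have h1 := hF2 G' hG' (hup G' hG' p0 p2 h0 (Sub.trans h42 h04) (hG.sub _ hp2))
    rw [mk_fin3] at h1
    exact ((hUQX _).2.2.2.1 _ _ _).1 h1
  have hnb : ∀ G', Gen (PF I) G' → G' p0 → ∀ [ZFC (Ext (PF I) G')], ∀ e, E e I →
      mk (PF I) G' u' ≠ Br (gg I G') (emb (PF I) G' e) := by
    intro G' hG' h0 _ e he heq
    have hT := hTEF _ _ (emb (PF I) G') (temb_emb' hG')
    have h1 := hF3 G' hG' (hup G' hG' p0 p3 h0 h03 (hG.sub _ hp3))
    rw [mk_fin3] at h1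
    obtain ⟨z, hz⟩ := ((hUQX _).2.2.2.2 _ _ _).1 h1 (emb (PF I) G' e) (hT.mem'.2 ⟨e, he, rfl⟩)
    apply hz
    rw [heq]
    exact hbr G' hG' e z
  -- the relations for the rigidity theorem in the model
  let Fr : M → M → M → Prop := fun p z j => E p (PS I) ∧ E j om ∧
    FS (PF I) QCap p ![Gnm (PF I), u', chk (PF I) z, chk (PF I) j]
  let Dr : M → M → M → Prop := fun p n s => E p (PS I) ∧ E n om ∧ E s NDS ∧
    FS (PF I) QRes p ![chk (PF I) s, u', chk (PF I) n]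
  have hFdf : Cl3 Fr := by
    have h1 : Df (fun v : Fin 3 → M => FS (PF I) QCap (v 0)
        ![Gnm (PF I), u', chk (PF I) (v 1), chk (PF I) (v 2)]) :=
      Df.comp5 (R := fun a b c d e => FS (PF I) QCap a ![b, c, d, e]) (FS4_df I QCap)
        (inferInstance : DfT (fun v : Fin 3 → M => v 0))
        (inferInstance : DfT (fun v : Fin 3 → M => Gnm (PF I)))
        (inferInstance : DfT (fun v : Fin 3 → M => u'))
        (inferInstance : DfT (fun v : Fin 3 → M => chk (PF I) (v 1)))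
        (inferInstance : DfT (fun v : Fin 3 → M => chk (PF I) (v 2)))
    have h2 : Df (fun v : Fin 3 → M => E (v 0) (PS I)) := inferInstance
    have h3 : Df (fun v : Fin 3 → M => E (v 2) om) := inferInstance
    exact Df.and (hP := h2) (hQ := Df.and (hP := h3) (hQ := h1))
  have hDdf : Cl3 Dr := by
    have h1 : Df (fun v : Fin 3 → M => FS (PF I) QRes (v 0)
        ![chk (PF I) (v 2), u', chk (PF I) (v 1)]) :=
      Df.comp4 (R := fun a b c d => FS (PF I) QRes a ![b, c, d]) (FS3_df I QRes)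
        (inferInstance : DfT (fun v : Fin 3 → M => v 0))
        (inferInstance : DfT (fun v : Fin 3 → M => chk (PF I) (v 2)))
        (inferInstance : DfT (fun v : Fin 3 → M => u'))
        (inferInstance : DfT (fun v : Fin 3 → M => chk (PF I) (v 1)))
    have h2 : Df (fun v : Fin 3 → M => E (v 0) (PS I)) := inferInstance
    have h3 : Df (fun v : Fin 3 → M => E (v 1) om) := inferInstance
    have h4 : Df (fun v : Fin 3 → M => E (v 2) NDS) := inferInstance
    exact Df.and (hP := h2) (hQ := Df.and (hP := h3) (hQ := Df.and (hP := h4) (hQ := h1)))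
  refine hRGM M I p0 Fr Dr hI hp0I hFdf hDdf ?_ ?_ ?_ ?_
  · rintro p q z j ⟨h1, h2, h3⟩ hq hpq
    exact ⟨hq, h2, fun G' hG' hq' => h3 G' hG' (hup G' hG' q p hq' hpq h1)⟩
  · intro z hz
    obtain ⟨G', hG', h0⟩ := (semF (PF I)).ex p0 hp0I
    have : ZFC (Ext (PF I) G') := hACX M (PF I) G' hG'
    have hT := hTEF _ _ (emb (PF I) G') (temb_emb' hG')
    obtain ⟨j, hj, hj'⟩ := hpr G' hG' h0 (emb (PF I) G' z) (hT.mem'.2 ⟨z, hz, rfl⟩)
    obtain ⟨j0, hj0, rfl⟩ := (hGGX M I G' hI hG').mo hj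
    obtain ⟨p, hp, hF⟩ := ((semF (PF I)).truth QCap G' hG'
      ![Gnm (PF I), u', chk (PF I) z, chk (PF I) j0]).1 (by
        rw [mk_fin4]
        exact ((hUQX _).2.1 _ _ _ _).2 hj')
    obtain ⟨r, hr, hr0, hrp⟩ := hG'.dir p0 p h0 hp
    exact ⟨r, j0, hG'.sub r hr, hr0, hj0, hG'.sub r hr, hj0, fun G2 hG2 hr2 =>
      hF G2 hG2 (hup G2 hG2 r p hr2 hrp (hG'.sub p hp))⟩
  · intro p R k hp hp0p hR hRI hk
    obtain ⟨G', hG', hpG⟩ := (semF (PF I)).ex p hp
    have : ZFC (Ext (PF I) G') := hACX M (PF I) G' hG'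
    have h0 : G' p0 := hup G' hG' p p0 hpG hp0p hp0I
    have hT := hTEF _ _ (emb (PF I) G') (temb_emb' hG')
    have hTG := hTEG _ _ (emb (PF I) G') (temb_emb' hG')
    have hgg := hGGX M I G' hI hG'
    have hS := hSQF (Ext (PF I) G')
    have hu' := hfn G' hG' h0
    -- for one index
    have key : ∀ e, E e I → ∃ n0, E n0 om ∧ ∀ p' v, G' p' → E (lV e v) p' →
        ¬ Sub (res (mk (PF I) G' u') (emb (PF I) G' n0)) (emb (PF I) G' v) := by
      intro e he
      by_cases hB : Fnc om LL (Br (gg I G') (emb (PF I) G' e))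
      · obtain ⟨z, hz⟩ : ∃ z, ¬ (E z (mk (PF I) G' u') ↔ E z (Br (gg I G') (emb _ G' e))) := by
          by_contra h
          push Not at h
          exact hnb G' hG' h0 e he (ext h)
        -- the functions differ at some number
        have : ∃ m a, E m om ∧ E (opair m a) (mk (PF I) G' u') ∧
            ¬ E (opair m a) (Br (gg I G') (emb _ G' e)) := by
          by_cases h1 : E z (mk (PF I) G' u')
          · obtain ⟨m, a, hm, ha, rfl⟩ := hu'.1 z h1
            exact ⟨m, a, hm, h1, fun h2 => hz ⟨fun _ => h2, fun _ => h1⟩⟩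
          · have h2 : E z (Br (gg I G') (emb _ G' e)) := by
              by_contra h2
              exact hz ⟨fun h => absurd h h1, fun h => absurd h h2⟩
            obtain ⟨m, a, hm, ha, rfl⟩ := hB.1 z h2
            obtain ⟨a', ha'⟩ := hu'.2.1 m hm
            refine ⟨m, a', hm, ha', fun h3 => h1 ?_⟩
            rw [hB.2.2 m a a' h2 h3]
            exact ha'
        obtain ⟨m, a, hm, h1, h2⟩ := this
        obtain ⟨m0, hm0, rfl⟩ := hgg.mo hm
        refine ⟨suc m0, suc_mem_om hm0, fun p' v hp' hv hsub => h2 ?_⟩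
        refine hgg.brs hp' hv _ (hsub _ (mem_res.2 ⟨h1, _, _, ?_, rfl⟩))
        rw [hT.suc]
        exact mem_suc.2 (Or.inr rfl)
      · refine ⟨emp, emp_mem_om, fun p' v hp' hv _ => ?_⟩
        have hpc := mem_PS.1 (hG'.sub p' hp')
        have hcode : IsC e := by
          rcases ((hAT).sye hI he).2.1 with h | h
          · exact absurd (hGB1 M I e G' hI hG' he h).1 hB
          · exact h
        obtain ⟨B, r, q, x, i, t, rfl⟩ := hcode
        have h1 : Sub q p' := (hpc.2.2.2.2.2 B r q x i t v hv).1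
        have h2 : G' q := hup G' hG' p' q hp' h1
          (hPS.mono (hAT.sycd hI he).2.2.1 (hAT.sycd hI he).2.2.2.2.2.2.1)
        exact hB ((hGB2 M I B r q x i t G' hI hG' he).2 h2).1
    -- for finitely many indices
    have key2 : ∀ b : Ext (PF I) G', Fnt b → Sub b (emb (PF I) G' I) → ∃ n0, E n0 om ∧
        ∀ e, E e b → ∀ p' v, E p' (gg I G') → E (lV e v) p' →
          ¬ Sub (res (mk (PF I) G' u') n0) v := by
      refine finF.ind (M := Ext (PF I) G') (fun b => Sub b (emb (PF I) G' I) → ∃ n0, E n0 om ∧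
        ∀ e, E e b → ∀ p' v, E p' (gg I G') → E (lV e v) p' →
          ¬ Sub (res (mk (PF I) G' u') n0) v) inferInstance ?_ ?_
      · intro _
        exact ⟨emp, emp_mem_om, fun e he => absurd he (not_mem_emp e)⟩
      · intro b a _ _ ih hsub
        obtain ⟨n1, hn1, h1⟩ := ih fun z hz => hsub z (mem_ins.2 (Or.inl hz))
        obtain ⟨e0, he0, rfl⟩ := hT.mem'.1 (hsub a (mem_ins.2 (Or.inr rfl)))
        obtain ⟨n2, hn2, h2⟩ := key e0 he0
        have hn2' : E (emb (PF I) G' n2) om := by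
          rw [← hT.om]; exact hT.mem'.2 ⟨n2, hn2, rfl⟩
        obtain ⟨k, hk, hk1, hk2⟩ := om_ub hn1 hn2'
        refine ⟨k, hk, fun e he p' v hp' hv hs => ?_⟩
        rcases mem_ins.1 he with he | rfl
        · exact h1 e he p' v hp' hv (Sub.trans (res_mono hk1) hs)
        · obtain ⟨p0', hp0', rfl⟩ := hgg.gg.1 hp'
          obtain ⟨v0, rfl, hv0⟩ := hlv G' hG' e0 p0' v hp0' hv
          exact h2 p0' v0 hp0' hv0 (Sub.trans (res_mono hk2) hs)
    obtain ⟨n1, hn1, hn1'⟩ := key2 (emb (PF I) G' R) (hTG.fnt.2 hR) (hT.sub.2 hRI)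
    obtain ⟨n2, hn2, rfl⟩ := hgg.mo hn1
    obtain ⟨n3, hn3, h32, h3k⟩ := om_ub hn2 hk
    -- the number
    have hnn : E (suc n3) om := suc_mem_om hn3
    have hkn : E k (suc n3) := by
      rcases (Ord_nat hk).sub_iff (Ord_nat hn3) |>.1 h3k with h | h
      · exact mem_suc.2 (Or.inl h)
      · exact mem_suc.2 (Or.inr h)
    have hnn' : E (emb (PF I) G' (suc n3)) om := by
      rw [← hT.om]; exact hT.mem'.2 ⟨_, hnn, rfl⟩
    obtain ⟨hs1, hs2⟩ := hS.rsi hu' hnn'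
    have hs1' : E (res (mk (PF I) G' u') (emb (PF I) G' (suc n3))) NDS := hs1
    rw [← hTG.NDS] at hs1'
    obtain ⟨s, hs, hse⟩ := hT.mem'.1 hs1'
    obtain ⟨p5, hp5, hD⟩ := ((semF (PF I)).truth QRes G' hG'
      ![chk (PF I) s, u', chk (PF I) (suc n3)]).1 (by
        rw [mk_fin3]
        exact ((hUQX _).2.2.1 _ _ _).2 hse.symm)
    obtain ⟨q, hq, hqp, hqp5⟩ := hG'.dir p p5 hpG hp5
    refine ⟨q, suc n3, s, hG'.sub q hq, hqp, hnn, hkn, hs, ?_, ⟨hG'.sub q hq, hnn, hs, ?_⟩, ?_⟩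
    · apply (temb_emb' hG').inj
      rw [hT.dmn, ← hse, hs2]
    · exact fun G2 hG2 hq2 => hD G2 hG2 (hup G2 hG2 q p5 hq2 hqp5 (hG'.sub p5 hp5))
    · intro e v he hv hsv
      have hsub : Sub (emb (PF I) G' n2) (emb (PF I) G' (suc n3)) :=
        hT.sub.2 fun z hz => mem_suc.2 (Or.inl (h32 z hz))
      refine hn1' (emb (PF I) G' e) (hT.mem'.2 ⟨e, he, rfl⟩) (emb (PF I) G' q)
        (emb (PF I) G' v) (hgg.gg.2 ⟨q, hq, rfl⟩) ?_ ?_
      · rw [← hT.lV]; exact hT.mem'.2 ⟨_, hv, rfl⟩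
      · refine Sub.trans (res_mono hsub) ?_
        rw [hse]
        exact hT.sub.2 hsv
  · rintro p q z j n s hz ⟨hq, hn, hs, hD⟩ hp hqp ⟨_, hj, hF⟩ hjn hgR
    obtain ⟨G', hG', hpG⟩ := (semF (PF I)).ex p hp
    have : ZFC (Ext (PF I) G') := hACX M (PF I) G' hG'
    have hT := hTEF _ _ (emb (PF I) G') (temb_emb' hG')
    have hgg := hGGX M I G' hI hG'
    have h1 := hD G' hG' (hup G' hG' p q hpG hqp hq)
    rw [mk_fin3] at h1
    have h1' : emb (PF I) G' s = res (mk (PF I) G' u') (emb (PF I) G' n) :=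
      ((hUQX _).2.2.1 _ _ _).1 h1
    have h2 := hF G' hG' hpG
    rw [mk_fin4] at h2
    have h2' := ((hUQX _).2.1 (mk (PF I) G' (Gnm (PF I))) (mk (PF I) G' u') (emb (PF I) G' z)
      (emb (PF I) G' j)).1 h2 (emb (PF I) G' n) (by rw [← hT.om]; exact hT.mem'.2 ⟨n, hn, rfl⟩)
      (hT.mem'.2 ⟨j, hjn, rfl⟩)
    rw [← h1', ← hT.res] at h2'
    obtain ⟨p'', hp'', h3⟩ := hgg.inr.1 h2'
    obtain ⟨r, hr, hrp, hrp''⟩ := hG'.dir p p'' hpG hp''
    have hrc := mem_PS.1 (hG'.sub r hr)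
    exact hAT.ne01 (hrc.2.1 _ _ _ _ (hrp _ hgR) (hrp'' _ h3))

end SW.SEP
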