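import Pool.Agent.H63.SEP.Main
import Pool.Agent.H15.MA.CLO
import Pool.Agent.H93.MA.CBA
import Pool.Agent.H12.MA.DEL
import Pool.Agent.H93.CT.All
import Pool.Agent.H22.FRU.CVG
import Pool.Agent.H22.FRU.WXG
import Pool.Agent.H83.FRU.MXG
import Pool.Agent.H83.FRU.NNG
import Pool.Agent.H1.SEP.DIC
import Pool.Agent.H1.SEP.WFR
import Pool.Agent.H13.SEP.ISF
import Pool.Agent.H13.SEP.OKI
import Pool.Agent.H19.SEP.SH1
import Pool.Agent.H19.SEP.SH2
import Pool.Agent.H19.SEP.SHO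
import Pool.Agent.H19.SEP.TEF
import Pool.Agent.H19.SEP.TEG
import Pool.Agent.H21.SEP.RG1
import Pool.Agent.H21.SEP.RG2
import Pool.Agent.H21.SEP.RGM
import Pool.Agent.H21.SEP.RGQ
import Pool.Agent.H22.SEP.EXC
import Pool.Agent.H22.SEP.EXF
import Pool.Agent.H22.SEP.EXN
import Pool.Agent.H22.SEP.NOD
import Pool.Agent.H22.SEP.PSF
import Pool.Agent.H28.SEP.CNV
import Pool.Agent.H28.SEP.NIJ
import Pool.Agent.H37.SEP.INV
import Pool.Agent.H37.SEP.RNM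
import Pool.Agent.H38.SEP.F13
import Pool.Agent.H38.SEP.TRE
import Pool.Agent.H4.SEP.GEC
import Pool.Agent.H4.SEP.HBF
import Pool.Agent.H4.SEP.ISX
import Pool.Agent.H40.SEP.LSK
import Pool.Agent.H40.SEP.MOS
import Pool.Agent.H40.SEP.QLS
import Pool.Agent.H40.SEP.QUP
import Pool.Agent.H42.SEP.RFL
import Pool.Agent.H42.SEP.TSP
import Pool.Agent.H42.SEP.UGD
import Pool.Agent.H42.SEP.UIX
import Pool.Agent.H45.SEP.CO1
import Pool.Agent.H45.SEP.ZSG
import Pool.Agent.H48.SEP.CO2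
import Pool.Agent.H48.SEP.DBN
import Pool.Agent.H49.SEP.BDF
import Pool.Agent.H49.SEP.COB
import Pool.Agent.H49.SEP.SRB
import Pool.Agent.H49.SEP.SRI
import Pool.Agent.H5.SEP.CTS
import Pool.Agent.H5.SEP.DIA
import Pool.Agent.H5.SEP.LIM1
import Pool.Agent.H5.SEP.SQF
import Pool.Agent.H5.SEP.TREC
import Pool.Agent.H63.SEP.RIG
import Pool.Agent.H64.SEP.GB
import Pool.Agent.H64.SEP.GGX
import Pool.Agent.H65.SEP.GVQ
import Pool.Agent.H65.SEP.Hier
import Pool.Agent.H65.SEP.OMQ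
import Pool.Agent.H66.SEP.ABH
import Pool.Agent.H67.SEP.BDB
import Pool.Agent.H67.SEP.BDD
import Pool.Agent.H67.SEP.BDI
import Pool.Agent.H67.SEP.BDS
import Pool.Agent.H67.SEP.BDU
import Pool.Agent.H67.SEP.IN2
import Pool.Agent.H72.SEP.ACG
import Pool.Agent.H72.SEP.ATM
import Pool.Agent.H78.SEP.TCV
import Pool.Agent.H80.SEP.BRG
import Pool.Agent.H80.SEP.BRP
import Pool.Agent.H80.SEP.UPW
import Pool.Agent.H85.SEP.DIK
import Pool.Agent.H85.SEP.FRX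
import Pool.Agent.H85.SEP.HEX
import Pool.Agent.H85.SEP.TRQ
import Pool.Agent.H85.SEP.UQX
import Pool.Agent.H91.SEP.CLC
import Pool.Agent.H91.SEP.NAM
import Pool.Agent.H91.SEP.SUP
import Pool.Agent.H91.SEP.WXX
import Pool.Agent.H93.SEP.TC1
import Pool.Agent.H93.SEP.TC2
import Pool.Agent.H93.SEP.TC3
import Pool.Agent.H95.SEP.CCS
import Pool.Agent.H95.SEP.CVX
import Pool.Agent.H95.SEP.SBX
import Pool.Agent.H97.SEP.EMX
import Pool.Agent.H97.SEP.ORX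
import Pool.Agent.H97.SEP.RLS
import Pool.Agent.H97.SEP.SPN
import Pool.Agent.H97.SEP.VLX

/-!
Project SEP: the modules put together.
-/

set_option linter.unusedVariables false
set_option synthInstance.maxSize 100000

namespace SW.SEP

open SW

theorem s_seq : SEQStmt := ma_seq u_acf u_cbt
theorem s_del : DELStmt := ma_del s_seq u_cbt u_w0
theorem s_nng : FU.NNGStmt := FU.fru_nng (FU.fru_mxg u_zorn) u_acf
theorem s_cvg : FU.CVGStmt := FU.fru_cvg u_cbt u_acf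
theorem s_wxg : FU.WXGStmt := FU.fru_wxg s_cvg u_cba

theorem t_trec : TRECStmt := sep_trec 
theorem t_chs : CHSStmt := sep_chs u_acf
theorem t_sqf : SQFStmt := sep_sqf 
theorem t_cts : CTSStmt := sep_cts t_sqf u_cbt
theorem t_dia : DIAStmt := sep_dia t_sqf u_dcx
theorem t_dik : DIKStmt := sep_dik 
theorem t_lim1 : LIM1Stmt := sep_lim1 t_sqf u_dcx
theorem t_wfr : WFRStmt := sep_wfr 
theorem t_dic : DICStmt := sep_dic u_dcx t_wfr
theorem t_hex : HEXStmt := sep_hex u_bit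
theorem t_hbf : HBFStmt := sep_hbf t_sqf u_cba t_cts
theorem t_atm : ATMStmt := sep_atm 
theorem t_psf : PSFStmt := sep_psf t_atm
theorem t_nod : NODStmt := sep_nod t_atm t_psf t_sqf
theorem t_exn : EXNStmt := sep_exn t_atm t_psf t_sqf t_nod
theorem t_exc : EXCStmt := sep_exc t_atm t_psf t_sqf t_nod t_exn
theorem t_exf : EXFStmt := sep_exf t_atm t_psf t_sqf
theorem t_exd : EXDStmt := sep_exd t_atm t_psf t_sqf t_nod t_exn
theorem t_ccs : CCSStmt := sep_ccs t_atm t_cts u_cbt s_del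
theorem t_rgq : RGQStmt := sep_rgq t_atm t_psf t_sqf
theorem t_rg1 : RG1Stmt := sep_rg1 t_atm t_sqf t_cts t_chs t_dia u_cbt
theorem t_rg2 : RG2Stmt := sep_rg2 t_atm t_psf t_dik t_lim1 t_chs
theorem t_rgm : RGMStmt := sep_rgm t_atm t_psf t_sqf t_rgq t_rg1 t_rg2
theorem t_acg : ACGStmt := sep_acg 
theorem t_isi : ISIStmt := sep_isi t_atm
theorem t_isf : ISFStmt := sep_isf t_atm
theorem t_oeq : OEQStmt := sep_oeq t_trec
theorem t_rnm : RNMStmt := sep_rnm t_trec t_atm t_acg t_isf t_hbf u_cba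
theorem t_oki : OKIStmt := sep_oki t_atm t_isf t_oeq
theorem t_inv : INVStmt := sep_inv t_atm t_psf t_acg t_isf t_rnm t_oki
theorem t_exr : EXRStmt := sep_exr t_atm t_isf t_rnm t_oki t_inv
theorem t_ugd : UGDStmt := sep_ugd 
theorem t_uix : UIXStmt := sep_uix t_atm t_hbf t_oeq
theorem t_clc : CLCStmt := sep_clc t_atm u_cbt
theorem t_sup : SUPStmt := sep_sup u_cbt
theorem t_cnv : CNVStmt := sep_cnv t_atm t_rnm t_isf t_oki t_inv t_ugd
theorem t_tef : TEFStmt := sep_tef 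
theorem t_teg : TEGStmt := sep_teg t_tef
theorem t_emx : EMXStmt := sep_emx t_trec
theorem t_orx : ORXStmt := sep_orx 
theorem t_vlx : VLXStmt := sep_vlx 
theorem t_cej : CEJStmt := sep_cej t_psf
theorem t_cei : CEIStmt := sep_cei t_isf
theorem t_sbx : SBXStmt := sep_sbx t_tef t_emx t_orx t_vlx t_cej
theorem t_isx : ISXStmt := sep_isx t_emx t_orx t_vlx t_cei t_isf
theorem t_trq : TRQStmt := sep_trq 
theorem t_brg : BRGStmt := sep_brg t_tef t_dic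
theorem t_brp : BRPStmt := sep_brp t_tef t_teg t_sqf t_brg
theorem t_sh1 : SH1Stmt := sep_sh1 t_sqf
theorem t_sh2 : SH2Stmt := sep_sh2 t_sqf t_dic
theorem t_sho : SHOStmt := sep_sho t_tef t_teg t_sqf t_cts t_brg t_sh1 t_sh2
theorem t_frx : FRXStmt := sep_frx t_trq
theorem t_tru : TRUStmt := sep_tru t_trq
theorem t_upw : UPWStmt := sep_upw t_frx t_sho t_sbx u_acx
theorem t_mof : MOFStmt := sep_mof t_frx
theorem t_fmi : FMIStmt := sep_fmi t_frx t_sho t_isx t_isf u_acx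
theorem t_nam : NAMStmt := sep_nam t_ccs s_nng t_vlx u_cbt
theorem t_rfl : RFLStmt := sep_rfl t_sqf t_cts t_clc t_sup t_nam t_tef t_teg t_sbx t_brp t_tru u_acx u_cbt
theorem t_cvx : CVXStmt := sep_cvx t_ccs s_cvg
theorem t_wxx : WXXStmt := sep_wxx t_ccs s_wxg
theorem t_nij : NIJStmt := sep_nij t_ccs t_chs u_cba
theorem t_ggx : GGXStmt := sep_ggx t_atm t_psf t_sqf t_tef
theorem t_uqx : UQXStmt := sep_uqx 
theorem t_gb1 : GB1Stmt := sep_gb1 t_psf t_sqf t_tef t_ggx t_exn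
theorem t_gvl : GVLStmt := sep_gvl t_atm t_psf t_tef t_vlx
theorem t_gb2 : GB2Stmt := sep_gb2 t_atm t_psf t_sqf t_tef t_vlx t_ggx t_exc
theorem t_gb4 : GB4Stmt := sep_gb4 t_psf t_sqf t_tef t_ggx t_exf
theorem t_gb5 : GB5Stmt := sep_gb5 t_psf t_sqf t_tef t_ggx t_exn t_exd
theorem t_rig : RIGStmt := sep_rig u_acx t_atm t_psf t_sqf t_tef t_teg t_rgm t_ggx t_uqx t_gb1 t_gb2
theorem t_gdc : GDCStmt := sep_gdc t_atm t_sqf t_gb1 t_gb2 t_gb5 t_gvl t_rig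
theorem t_gec : GECStmt := sep_gec t_gb2 t_gb4 t_gvl t_sqf
theorem t_rls : RLSStmt := sep_rls t_tef t_cts u_cbt t_gb5
theorem t_nch : NCHStmt := sep_nch t_tef t_wxx t_nij t_rls
theorem t_tcv : TCVStmt := sep_tcv t_atm t_psf t_ugd t_uix t_clc t_sup t_nam t_vlx t_hbf t_tef t_gec u_cbt
theorem t_tc1 : TC1Stmt := sep_tc1 t_atm t_psf t_oeq t_ugd t_gdc t_rfl t_mof
theorem t_tc2 : TC2Stmt := sep_tc2 t_atm t_psf t_isf t_oeq t_ugd t_clc t_sup t_exr t_cnv t_fmi t_upw t_mof t_frx t_trq t_gdc t_rfl u_cba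
theorem t_tc3 : TC3Stmt := sep_tc3 t_atm t_psf t_isf t_oeq t_ugd t_clc t_exr t_fmi t_upw t_mof t_frx t_sbx t_gdc u_cba
theorem t_tsp : TSPStmt := sep_tsp t_sqf t_cts t_atm t_hbf t_oeq t_clc t_sup t_nam t_tef t_teg t_tcv t_tc1 t_tc2 t_tc3 u_cbt
theorem t_abh : ABHStmt := sep_abh 
theorem t_gvq : GVQStmt := sep_gvq 
theorem t_omq : OMQStmt := sep_omq 
theorem t_hwe : HWEStmt := sep_hwe 
theorem t_hwu : HWUStmt := sep_hwu 
theorem t_hwv : HWVStmt := sep_hwv 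
theorem t_lsk : LSKStmt := sep_lsk u_cbt t_chs
theorem t_mos : MOSStmt := sep_mos t_wfr
theorem t_sri : SRIStmt := sep_sri 
theorem t_qls : QLSStmt := sep_qls t_lsk t_mos t_sri t_abh u_cbt
theorem t_qup : QUPStmt := sep_qup t_omq t_abh t_hwe t_hwu
theorem t_bdb : BDBStmt := sep_bdb t_sqf
theorem t_in2 : IN2Stmt := sep_in2 ma_cbp
theorem t_bdi : BDIStmt := sep_bdi t_sqf t_chs t_in2
theorem t_bdu : BDUStmt := sep_bdu t_sqf t_chs
theorem t_bdd : BDDStmt := sep_bdd t_bdb t_bdi t_bdu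
theorem t_bds : BDSStmt := sep_bds t_sqf
theorem t_bdf : BDFStmt := sep_bdf 
theorem t_f13 : F13Stmt := sep_f13 t_sqf t_in2
theorem t_tre : TREStmt := sep_tre t_sqf
theorem t_srb : SRBStmt := sep_srb t_bdf
theorem t_cob : COBStmt := sep_cob 
theorem t_co1 : CO1Stmt := sep_co1 t_sri
theorem t_co2 : CO2Stmt := sep_co2 t_sqf t_sri t_mos u_dcx
theorem t_zsg : ZSGStmt := sep_zsg t_tef t_bdf t_hwv t_qls t_qup t_cob t_co1 t_co2 t_in2
theorem t_dbn : DBNStmt := sep_dbn t_sqf t_cts t_bdf t_bds t_in2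
theorem t_spn : SPNStmt := sep_spn t_dbn t_bdd t_f13 t_tre t_omq

theorem t_main : MAINStmt := sep_main t_hex t_ugd t_uix t_tsp t_spn t_zsg t_orx t_nch u_w0 u_acx

end SW.SEP
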