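import Pool.Agent.H93.CT.Core

/-!
The definitions used in the statement of the consistency theorem about the separation property:
the axiom of constructibility, projective classes of the Baire space and the separation property,
all inside a structure for the membership relation. (Structures, the axioms of ZFC, ordered pairs,
the set of natural numbers, functions, the continuum hypothesis and generic extensions are defined
in the files H35/SW/Core, H13/MA/Core and H93/CT/Core.)
-/

namespace SW.SEP

open SW

section
variable {N : Type} [SetStr N]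

/-! ### the constructible hierarchy -/

/-- `t` is the ordered triple `((u, v), w)` -/
def IsTriple (t u v w : N) : Prop := ∃ p, IsOP p u v ∧ IsOP t p w

/-- `z` is the value of one of the ten Goedel operations at `x`, `y` (Jech, Set Theory,
Definition 13.6): the unordered pair, the product, the membership relation between `x` and `y`,
the difference, the intersection, the union of `x`, the domain of `x`, and three operations
permuting the components of ordered pairs and triples in `x` -/
def IsGoedelValue (z x y : N) : Prop :=
  (∀ t, E t z ↔ t = x ∨ t = y) ∨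
  (∀ t, E t z ↔ ∃ u v, E u x ∧ E v y ∧ IsOP t u v) ∨
  (∀ t, E t z ↔ ∃ u v, E u x ∧ E v y ∧ E u v ∧ IsOP t u v) ∨
  (∀ t, E t z ↔ E t x ∧ ¬ E t y) ∨
  (∀ t, E t z ↔ E t x ∧ E t y) ∨
  (∀ t, E t z ↔ ∃ u, E u x ∧ E t u) ∨
  (∀ t, E t z ↔ ∃ v, PairIn t v x) ∨
  (∀ t, E t z ↔ ∃ u v, IsOP t u v ∧ PairIn v u x) ∨
  (∀ t, E t z ↔ ∃ u v w, IsTriple t u v w ∧ ∃ s, IsTriple s u w v ∧ E s x) ∨
  (∀ t, E t z ↔ ∃ u v w, IsTriple t u v w ∧ ∃ s, IsTriple s v w u ∧ E s x)

/-- the set `c` is closed under the Goedel operations -/
def IsGoedelClosed (c : N) : Prop := ∀ x y z, E x c → E y c → IsGoedelValue z x y → E z c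

/-- `c` is the closure of `a` under the Goedel operations -/
def IsGoedelClosure (a c : N) : Prop := Incl a c ∧ IsGoedelClosed c ∧
  ∀ d, Incl a d → IsGoedelClosed d → Incl c d

/-- `d` is the set of definable subsets of the (transitive) set `a`: the members of the closure of
`a ∪ {a}` under the Goedel operations which are subsets of `a` (Jech, Corollary 13.8) -/
def IsDefinablePower (a d : N) : Prop := ∃ s c, (∀ t, E t s ↔ E t a ∨ t = a) ∧
  IsGoedelClosure s c ∧ ∀ y, E y d ↔ E y c ∧ Incl y a

/-- `d` is an ordinal: a transitive set of transitive sets -/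
def IsOrdinal (d : N) : Prop := IsTransitive d ∧ ∀ y, E y d → IsTransitive y

/-- `f` is the function which assigns to each ordinal `b ≤ d` the level `b` of the constructible
hierarchy, that is, the union over all `c < b` of the set of definable subsets of the level `c` -/
def IsHierarchy (f d : N) : Prop := IsOrdinal d ∧
  (∀ z, E z f → ∃ b y, (E b d ∨ b = d) ∧ IsOP z b y) ∧
  ∀ b, (E b d ∨ b = d) → ∃ y, PairIn b y f ∧ (∀ y', PairIn b y' f → y' = y) ∧
    ∀ t, E t y ↔ ∃ c u e, E c b ∧ PairIn c u f ∧ IsDefinablePower u e ∧ E t e

/-! ### projective sets -/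

/-- `x` is a point of the Baire space: a function from the set `o` of natural numbers to itself -/
def IsPoint (o x : N) : Prop := IsFunction x o o

/-- the quadruple `(x, (y, (w, v)))` is a member of `C` -/
def QuadIn (x y w v C : N) : Prop := ∃ p q, IsOP p w v ∧ IsOP q y p ∧ PairIn x q C

/-- the functions `x` and `x'` agree below `n` -/
def AgreeBelow (n x x' : N) : Prop := ∀ k a, E k n → (PairIn k a x ↔ PairIn k a x')

/-- the set of quadruples of points of the Baire space which are members of `C` is closed -/
def IsClosed4 (o C : N) : Prop := ∀ x y w v, IsPoint o x → IsPoint o y → IsPoint o w →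
  IsPoint o v → ¬ QuadIn x y w v C → ∃ n, E n o ∧ ∀ x' y' w' v', IsPoint o x' → IsPoint o y' →
    IsPoint o w' → IsPoint o v' → AgreeBelow n x x' → AgreeBelow n y y' → AgreeBelow n w w' →
    AgreeBelow n v v' → ¬ QuadIn x' y' w' v' C

/-- `A` is a (boldface) Sigma-1-3 subset of the Baire space: for some closed set `C` it is the set
of all points `x` such that for some point `y`, for all points `w`, for some point `v`, the
quadruple `(x, y, w, v)` is in `C` -/
def IsSigma13 (o A : N) : Prop := (∀ x, E x A → IsPoint o x) ∧ ∃ C, IsClosed4 o C ∧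
  ∀ x, IsPoint o x → (E x A ↔ ∃ y, IsPoint o y ∧ ∀ w, IsPoint o w →
    ∃ v, IsPoint o v ∧ QuadIn x y w v C)

/-- `A` is a (boldface) Delta-1-3 subset of the Baire space: `A` and its complement are
Sigma-1-3 -/
def IsDelta13 (o A : N) : Prop := IsSigma13 o A ∧ ∃ B, IsSigma13 o B ∧
  ∀ x, IsPoint o x → (E x B ↔ ¬ E x A)

end

/-- the axiom of constructibility: every set is in some level of the constructible hierarchy -/
def AxiomOfConstructibility (M : Type) [SetStr M] : Prop :=
  ∀ x : M, ∃ f d y, IsHierarchy f d ∧ PairIn d y f ∧ E x y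

/-- the (boldface) Sigma-1-3-separation property: for any two disjoint Sigma-1-3 sets `A`, `B`
of points of the Baire space there is a Delta-1-3 set `C` which contains `A` and is disjoint
from `B` -/
def Sigma13Separation (N : Type) [SetStr N] : Prop := ∀ o A B : N, IsOmega o → IsSigma13 o A →
  IsSigma13 o B → (∀ x, ¬ (E x A ∧ E x B)) →
  ∃ C, IsDelta13 o C ∧ Incl A C ∧ ∀ x, ¬ (E x B ∧ E x C)

/-- in `N` there are at least as many subsets of the set of natural numbers as members of `k` -/
def ContinuumAtLeast {N : Type} [SetStr N] (k : N) : Prop := ∃ o f, IsOmega o ∧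
  (∀ a, E a k → ∃ x, Incl x o ∧ PairIn a x f) ∧
  ∀ a a' x, E a k → E a' k → PairIn a x f → PairIn a' x f → a = a'

end SW.SEP
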