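import Pool.Agent.H93.CT.Defs
import Pool.Agent.H35.SW.FRelM
import Pool.Agent.H63.SEP.Core

/-!
Project SEP, definitions, part 1: pairs, functions, finite sequences, atoms, indices, conditions,
the posets `PF I`.
-/

set_option linter.unusedVariables false
set_option synthInstance.maxSize 100000

namespace SW.SEP

open SW

section
variable {M : Type} [SetStr M] [ZF M]

/-! ### components, functions, finite sequences -/

/-- the number one -/
noncomputable def one : M := sing emp

/-- the first component of an ordered pair -/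
noncomputable def p1 (t : M) : M := the (fun a => ∃ b, t = opair a b)

/-- the second component of an ordered pair -/
noncomputable def p2 (t : M) : M := the (fun b => ∃ a, t = opair a b)

theorem p1_df : Fn1 (fun t : M => p1 t) := by unfold p1; infer_instance

theorem p2_df : Fn1 (fun t : M => p2 t) := by unfold p2; infer_instance

instance {n : ℕ} {t : (Fin n → M) → M} [ht : DfT t] : DfT (fun v => p1 (t v)) := p1_df.comp1 ht

instance {n : ℕ} {t : (Fin n → M) → M} [ht : DfT t] : DfT (fun v => p2 (t v)) := p2_df.comp1 ht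

@[simp] theorem p1_opair (a b : M) : p1 (opair a b) = a :=
  the_eq (p := fun x => ∃ y, opair a b = opair x y) ⟨b, rfl⟩ fun z ⟨y, hy⟩ => by
    rw [opair_inj] at hy; exact hy.1.symm

@[simp] theorem p2_opair (a b : M) : p2 (opair a b) = b :=
  the_eq (p := fun y => ∃ x, opair a b = opair x y) ⟨a, rfl⟩ fun z ⟨y, hy⟩ => by
    rw [opair_inj] at hy; exact hy.2.symm

/-- `v` is a function from `a` to `b` -/
def Fnc (a b v : M) : Prop := (∀ z, E z v → ∃ x y, E x a ∧ E y b ∧ z = opair x y) ∧
  (∀ x, E x a → ∃ y, E (opair x y) v) ∧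
  ∀ x y y', E (opair x y) v → E (opair x y') v → y = y'

theorem Fnc_df : Cl3 (fun a b v : M => Fnc a b v) := by unfold Fnc; infer_instance

instance {n : ℕ} {t s u : (Fin n → M) → M} [ht : DfT t] [hs : DfT s] [hu : DfT u] :
    Df (fun v => Fnc (t v) (s v) (u v)) := Fnc_df.comp3 ht hs hu

/-- the set of finite sequences in `A`: functions from natural numbers to `A` -/
noncomputable def SQ (A : M) : M := sep (pow (prod om A)) (fun v => ∃ n, E n om ∧ Fnc n A v)

theorem SQ_df : Fn1 (fun A : M => SQ A) := by unfold SQ; infer_instance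

instance {n : ℕ} {t : (Fin n → M) → M} [ht : DfT t] : DfT (fun v => SQ (t v)) := SQ_df.comp1 ht

theorem mem_SQ {A v : M} : E v (SQ A) ↔ ∃ n, E n om ∧ Fnc n A v := by
  unfold SQ
  rw [mem_sep, mem_pow]
  refine ⟨fun h => h.2, fun h => ⟨?_, h⟩⟩
  obtain ⟨n, hn, h1, h2, h3⟩ := h
  intro z hz
  obtain ⟨x, y, hx, hy, rfl⟩ := h1 z hz
  exact mem_prod.2 ⟨Trans_om n hn x hx, hy⟩

/-- the set of all functions from `om` to `om` -/
noncomputable def BS : M := sep (pow (prod om om)) (fun v => Fnc om om v)

theorem mem_BS {v : M} : E v BS ↔ Fnc om om v := by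
  unfold BS
  rw [mem_sep, mem_pow]
  refine ⟨fun h => h.2, fun h => ⟨?_, h⟩⟩
  intro z hz
  obtain ⟨x, y, hx, hy, rfl⟩ := h.1 z hz
  exact mem_prod.2 ⟨hx, hy⟩

/-- the sequence `s` extended by the value `a` -/
noncomputable def sx (s a : M) : M := ins (opair (dmn s) a) s

instance {n : ℕ} {t s : (Fin n → M) → M} [ht : DfT t] [hs : DfT s] :
    DfT (fun v => sx (t v) (s v)) := by unfold sx; infer_instance

/-! ### values of branches, nodes -/

/-- the values of the branch of an index which is not a code -/
noncomputable def nonc (c : M) : M := opair emp c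

/-- the values of the branch of a code: `a` is the value of the coded point, `c'` comes from the
value of the branch of the rule (or label) of the code, `i` is the side, `c` is free -/
noncomputable def cdv (a c' i c : M) : M := opair one (opair a (opair c' (opair i c)))

instance {n : ℕ} {t : (Fin n → M) → M} [ht : DfT t] : DfT (fun v => nonc (t v)) := by
  unfold nonc; infer_instance

instance {n : ℕ} {t s u x : (Fin n → M) → M} [ht : DfT t] [hs : DfT s] [hu : DfT u]
    [hx : DfT x] : DfT (fun v => cdv (t v) (s v) (u v) (x v)) := by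
  unfold cdv; infer_instance

/-- the set of all values of branches -/
noncomputable def LL : M := bun (prod (sing emp) om)
  (prod (sing one) (prod om (prod om (prod two om))))

/-- the set of nodes: finite sequences of values -/
noncomputable def NDS : M := SQ LL

/-! ### indices

There are three kinds of indices: labels `lbl B t`, rules `rul B T0 T1 t` and codes
`cod B r q x i t`. The set `B` is the base of the index (a set of indices), `t` is a tag. -/

noncomputable def lbl (B t : M) : M := opair two (opair B t)

noncomputable def rul (B T0 T1 t : M) : M := opair emp (opair B (opair T0 (opair T1 t)))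

noncomputable def cod (B r q x i t : M) : M :=
  opair one (opair B (opair r (opair q (opair x (opair i t)))))

instance {n : ℕ} {t s : (Fin n → M) → M} [ht : DfT t] [hs : DfT s] :
    DfT (fun v => lbl (t v) (s v)) := by unfold lbl; infer_instance

instance {n : ℕ} {t s u x : (Fin n → M) → M} [ht : DfT t] [hs : DfT s] [hu : DfT u]
    [hx : DfT x] : DfT (fun v => rul (t v) (s v) (u v) (x v)) := by
  unfold rul; infer_instance

instance {n : ℕ} {t s u x y z : (Fin n → M) → M} [ht : DfT t] [hs : DfT s] [hu : DfT u]
    [hx : DfT x] [hy : DfT y] [hz : DfT z] :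
    DfT (fun v => cod (t v) (s v) (u v) (x v) (y v) (z v)) := by
  unfold cod; infer_instance

/-- `e` is a label -/
def IsL (e : M) : Prop := ∃ B t, e = lbl B t

/-- `e` is a rule -/
def IsR (e : M) : Prop := ∃ B T0 T1 t, e = rul B T0 T1 t

/-- `e` is a code -/
def IsC (e : M) : Prop := ∃ B r q x i t, e = cod B r q x i t

/-- `e` is a label or a rule -/
def Nc (e : M) : Prop := IsL e ∨ IsR e

theorem IsL_df : Cl (fun e : M => IsL e) := by unfold IsL; infer_instance

theorem IsR_df : Cl (fun e : M => IsR e) := by unfold IsR; infer_instance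

theorem IsC_df : Cl (fun e : M => IsC e) := by unfold IsC; infer_instance

instance {n : ℕ} {t : (Fin n → M) → M} [ht : DfT t] : Df (fun v => IsL (t v)) := IsL_df.comp1 ht

instance {n : ℕ} {t : (Fin n → M) → M} [ht : DfT t] : Df (fun v => IsR (t v)) := IsR_df.comp1 ht

instance {n : ℕ} {t : (Fin n → M) → M} [ht : DfT t] : Df (fun v => IsC (t v)) := IsC_df.comp1 ht

instance {n : ℕ} {t : (Fin n → M) → M} [ht : DfT t] : Df (fun v => Nc (t v)) := by
  unfold Nc; infer_instance

/-- the base of an index -/
noncomputable def bs (e : M) : M := the (fun B => ∃ k r, e = opair k (opair B r))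

theorem bs_df : Fn1 (fun e : M => bs e) := by unfold bs; infer_instance

instance {n : ℕ} {t : (Fin n → M) → M} [ht : DfT t] : DfT (fun v => bs (t v)) := bs_df.comp1 ht

theorem bs_opair (k B r : M) : bs (opair k (opair B r)) = B :=
  the_eq (p := fun B' => ∃ k' r', opair k (opair B r) = opair k' (opair B' r')) ⟨k, r, rfl⟩
    fun z ⟨k', r', h⟩ => by
      rw [opair_inj, opair_inj] at h; exact h.2.1.symm

@[simp] theorem bs_lbl (B t : M) : bs (lbl B t) = B := bs_opair _ _ _

@[simp] theorem bs_rul (B T0 T1 t : M) : bs (rul B T0 T1 t) = B := bs_opair _ _ _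

@[simp] theorem bs_cod (B r q x i t : M) : bs (cod B r q x i t) = B := bs_opair _ _ _

/-! ### atoms and conditions -/

/-- the atom saying that the value of the generic relation at the node `s` and the finite
sequence `a` of natural numbers is `b` (`b` is `emp` or `one`) -/
noncomputable def gR (s a b : M) : M := opair emp (opair two (opair s (opair a b)))

/-- the atom saying that the branch of the index `e` extends the node `v` -/
noncomputable def lV (e v : M) : M := opair e (opair emp v)

/-- the promise for the index `e` and `z` in `BS`: for all nodes `s` of the branch of `e` with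
`j ∈ dmn s` the value of the generic relation at `s` and the restriction of `z` to `dmn s` is
`one` -/
noncomputable def lF (e z j : M) : M := opair e (opair one (opair z j))

instance {n : ℕ} {t s u : (Fin n → M) → M} [ht : DfT t] [hs : DfT s] [hu : DfT u] :
    DfT (fun v => gR (t v) (s v) (u v)) := by unfold gR; infer_instance

instance {n : ℕ} {t s : (Fin n → M) → M} [ht : DfT t] [hs : DfT s] :
    DfT (fun v => lV (t v) (s v)) := by unfold lV; infer_instance

instance {n : ℕ} {t s u : (Fin n → M) → M} [ht : DfT t] [hs : DfT s] [hu : DfT u] :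
    DfT (fun v => lF (t v) (s v) (u v)) := by unfold lF; infer_instance

/-- `p` is a finite set of atoms with indices in `I` -/
def Shp (I p : M) : Prop := Fnt p ∧ ∀ a, E a p →
  (∃ s τ b, E s NDS ∧ E τ (SQ om) ∧ E b two ∧ a = gR s τ b) ∨
  (∃ e v, E e I ∧ E v NDS ∧ a = lV e v) ∨
  (∃ e z j, E e I ∧ E z BS ∧ E j om ∧ a = lF e z j)

/-- the values of the generic relation are unique -/
def Rsv (p : M) : Prop := ∀ s τ b b', E (gR s τ b) p → E (gR s τ b') p → b = b'

/-- the nodes of an index are comparable -/
def Vcm (p : M) : Prop := ∀ e v v', E (lV e v) p → E (lV e v') p → Sub v v' ∨ Sub v' v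

/-- the promises are kept -/
def Prm (p : M) : Prop := ∀ e z j v s, E (lF e z j) p → E (lV e v) p → E s NDS → Sub s v →
  E j (dmn s) → E (gR s (res z (dmn s)) one) p

/-- values of the branches of labels and rules -/
def Nco (p : M) : Prop := ∀ e v, E (lV e v) p → Nc e → ∀ n a, E (opair n a) v →
  ∃ c, E c om ∧ a = nonc c

/-- values of the branches of codes -/
def Cco (p : M) : Prop := ∀ B r q x i t v, E (lV (cod B r q x i t) v) p → Sub q p ∧
  ∀ n a, E (opair n a) v → ∃ a0 c' c, E a0 om ∧ E c' om ∧ E c om ∧ a = cdv a0 c' i c ∧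
    (∃ q', Sub q' p ∧ E (opair q' (opair n a0)) x) ∧
    ∃ v', E (lV r v') p ∧ E (opair n (nonc c')) v'

theorem Shp_df : Cl2 (fun I p : M => Shp I p) := by unfold Shp; infer_instance

theorem Rsv_df : Cl (fun p : M => Rsv p) := by unfold Rsv; infer_instance

theorem Vcm_df : Cl (fun p : M => Vcm p) := by unfold Vcm; infer_instance

theorem Prm_df : Cl (fun p : M => Prm p) := by unfold Prm; infer_instance

theorem Nco_df : Cl (fun p : M => Nco p) := by unfold Nco; infer_instance

theorem Cco_df : Cl (fun p : M => Cco p) := by unfold Cco; infer_instance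

instance {n : ℕ} {t s : (Fin n → M) → M} [ht : DfT t] [hs : DfT s] :
    Df (fun v => Shp (t v) (s v)) := Shp_df.comp2 ht hs

instance {n : ℕ} {t : (Fin n → M) → M} [ht : DfT t] : Df (fun v => Rsv (t v)) := Rsv_df.comp1 ht

instance {n : ℕ} {t : (Fin n → M) → M} [ht : DfT t] : Df (fun v => Vcm (t v)) := Vcm_df.comp1 ht

instance {n : ℕ} {t : (Fin n → M) → M} [ht : DfT t] : Df (fun v => Prm (t v)) := Prm_df.comp1 ht

instance {n : ℕ} {t : (Fin n → M) → M} [ht : DfT t] : Df (fun v => Nco (t v)) := Nco_df.comp1 ht

instance {n : ℕ} {t : (Fin n → M) → M} [ht : DfT t] : Df (fun v => Cco (t v)) := Cco_df.comp1 ht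

/-- `p` is a condition over the set `I` of indices -/
def Cond (I p : M) : Prop := Shp I p ∧ Rsv p ∧ Vcm p ∧ Prm p ∧ Nco p ∧ Cco p

theorem Cond_df : Cl2 (fun I p : M => Cond I p) := by unfold Cond; infer_instance

instance {n : ℕ} {t s : (Fin n → M) → M} [ht : DfT t] [hs : DfT s] :
    Df (fun v => Cond (t v) (s v)) := Cond_df.comp2 ht hs

/-- the possible second components of atoms -/
noncomputable def WW : M := bun (prod (sing two) (prod NDS (prod (SQ om) two)))
  (bun (prod (sing emp) NDS) (prod (sing one) (prod BS om)))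

/-- the set of conditions over `I` -/
noncomputable def PS (I : M) : M := sep (pow (prod (ins emp I) WW)) (fun p => Cond I p)

theorem PS_df : Fn1 (fun I : M => PS I) := by unfold PS; infer_instance

instance {n : ℕ} {t : (Fin n → M) → M} [ht : DfT t] : DfT (fun v => PS (t v)) := PS_df.comp1 ht

theorem shp_sub {I p : M} (h : Shp I p) : Sub p (prod (ins emp I) WW) := by
  intro a ha
  rcases h.2 a ha with ⟨s, τ, b, hs, hτ, hb, rfl⟩ | ⟨e, v, he, hv, rfl⟩ | ⟨e, z, j, he, hz, hj, rfl⟩
  · simp only [gR, mem_prod, WW, mem_bun, mem_ins, mem_sing, or_true, true_and]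
    exact Or.inl ⟨hs, hτ, hb⟩
  · simp only [lV, mem_prod, WW, mem_bun, mem_ins, mem_sing]
    exact ⟨Or.inl he, Or.inr (Or.inl ⟨trivial, hv⟩)⟩
  · simp only [lF, mem_prod, WW, mem_bun, mem_ins, mem_sing]
    exact ⟨Or.inl he, Or.inr (Or.inr ⟨trivial, hz, hj⟩)⟩

theorem mem_PS {I p : M} : E p (PS I) ↔ Cond I p := by
  unfold PS
  rw [mem_sep, mem_pow]
  exact ⟨fun h => h.2, fun h => ⟨shp_sub h.1, h⟩⟩

theorem Cond_emp (I : M) : Cond I emp := by
  refine ⟨⟨finF.emp, fun z hz => absurd hz (not_mem_emp z)⟩, ?_, ?_, ?_, ?_, ?_⟩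
  · exact fun s τ b b' h => absurd h (not_mem_emp _)
  · exact fun e v v' h => absurd h (not_mem_emp _)
  · exact fun e z j v s h => absurd h (not_mem_emp _)
  · exact fun e v h => absurd h (not_mem_emp _)
  · exact fun B r q x i t v h => absurd h (not_mem_emp _)

/-- the notion of forcing: conditions over `I`, ordered by reverse inclusion -/
noncomputable def PF (I : M) : FPoset M where
  P := PS I
  le := fun p q => Sub q p
  one := emp
  le_df := inferInstance
  one_mem := mem_PS.2 (Cond_emp I)
  refl := fun p _ => Sub.refl p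
  trans := fun p q r _ _ _ h1 h2 => Sub.trans h2 h1
  le_one := fun p _ z hz => absurd hz (not_mem_emp z)

/-- the restriction of the condition `p` to the set `J` of indices (all atoms `gR` are kept) -/
noncomputable def rJ (J p : M) : M := inter p (prod (ins emp J) WW)

theorem rJ_df : Fn2 (fun J p : M => rJ J p) := by unfold rJ; infer_instance

instance {n : ℕ} {t s : (Fin n → M) → M} [ht : DfT t] [hs : DfT s] :
    DfT (fun v => rJ (t v) (s v)) := rJ_df.comp2 ht hs

theorem mem_rJ {J p z : M} : E z (rJ J p) ↔ E z p ∧ E z (prod (ins emp J) WW) := by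
  unfold rJ; rw [mem_inter]

/-! ### names, valid indices, systems -/

/-- `τ` is a countable name over `J` of a subset of `X`: a set of pairs (condition, member
of `X`) -/
def Nm (J X τ : M) : Prop := Cb τ ∧ ∀ t, E t τ → ∃ q a, E q (PS J) ∧ E a X ∧ t = opair q a

theorem Nm_df : Cl3 (fun J X τ : M => Nm J X τ) := by unfold Nm; infer_instance

instance {n : ℕ} {t s u : (Fin n → M) → M} [ht : DfT t] [hs : DfT s] [hu : DfT u] :
    Df (fun v => Nm (t v) (s v) (u v)) := Nm_df.comp3 ht hs hu

/-- the set of quadruples of finite sequences of natural numbers -/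
noncomputable def Q4 : M := prod (SQ om) (prod (SQ om) (prod (SQ om) (SQ om)))

/-- below `q` the name `x` is total -/
def Tot (B q x : M) : Prop := ∀ r, E r (PS B) → Sub q r → ∀ n, E n om →
  ∃ r' q' a, E r' (PS B) ∧ Sub r r' ∧ Sub q' r' ∧ E (opair q' (opair n a)) x

/-- below `q` the name `x` is single valued -/
def Fun (B q x : M) : Prop := ∀ r, E r (PS B) → Sub q r → ∀ q' q'' n a a', Sub q' r → Sub q'' r →
  E (opair q' (opair n a)) x → E (opair q'' (opair n a')) x → a = a'

theorem Tot_df : Cl3 (fun B q x : M => Tot B q x) := by unfold Tot; infer_instance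

theorem Fun_df : Cl3 (fun B q x : M => Fun B q x) := by unfold Fun; infer_instance

instance {n : ℕ} {t s u : (Fin n → M) → M} [ht : DfT t] [hs : DfT s] [hu : DfT u] :
    Df (fun v => Tot (t v) (s v) (u v)) := Tot_df.comp3 ht hs hu

instance {n : ℕ} {t s u : (Fin n → M) → M} [ht : DfT t] [hs : DfT s] [hu : DfT u] :
    Df (fun v => Fun (t v) (s v) (u v)) := Fun_df.comp3 ht hs hu

/-- `B` contains the bases of its members -/
def ClB (B : M) : Prop := ∀ d, E d B → Sub (bs d) B

theorem ClB_df : Cl (fun B : M => ClB B) := by unfold ClB; infer_instance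

instance {n : ℕ} {t : (Fin n → M) → M} [ht : DfT t] : Df (fun v => ClB (t v)) := ClB_df.comp1 ht

/-- valid labels -/
def LVL (e : M) : Prop := ∃ B t, e = lbl B t ∧ Cb B ∧ ClB B

/-- valid rules -/
def LVR (e : M) : Prop := ∃ B T0 T1 t, e = rul B T0 T1 t ∧ Cb B ∧ ClB B ∧ Nm B Q4 T0 ∧ Nm B Q4 T1

/-- valid codes -/
def LVC (e : M) : Prop := ∃ B r q x i t, e = cod B r q x i t ∧ Cb B ∧ ClB B ∧ E r B ∧ Nc r ∧
  E q (PS B) ∧ Nm B (prod om om) x ∧ Tot B q x ∧ Fun B q x ∧ E i two

theorem LVL_df : Cl (fun e : M => LVL e) := by unfold LVL; infer_instance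

theorem LVR_df : Cl (fun e : M => LVR e) := by unfold LVR; infer_instance

theorem LVC_df : Cl (fun e : M => LVC e) := by unfold LVC; infer_instance

instance {n : ℕ} {t : (Fin n → M) → M} [ht : DfT t] : Df (fun v => LVL (t v)) := LVL_df.comp1 ht

instance {n : ℕ} {t : (Fin n → M) → M} [ht : DfT t] : Df (fun v => LVR (t v)) := LVR_df.comp1 ht

instance {n : ℕ} {t : (Fin n → M) → M} [ht : DfT t] : Df (fun v => LVC (t v)) := LVC_df.comp1 ht

/-- `J` is a system: a set of valid indices which contains the bases of its members -/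
def Sy (J : M) : Prop := ∀ e, E e J → Sub (bs e) J ∧ (LVL e ∨ LVR e ∨ LVC e)

theorem Sy_df : Cl (fun J : M => Sy J) := by unfold Sy; infer_instance

instance {n : ℕ} {t : (Fin n → M) → M} [ht : DfT t] : Df (fun v => Sy (t v)) := Sy_df.comp1 ht

/-- check names (all posets `PF J` have the same largest element `emp`) -/
noncomputable def ckn (x : M) : M := mrec (fun x g => img x (fun y => opair (app g y) emp)) x

theorem ckn_df : Fn1 (fun x : M => ckn x) := by unfold ckn; infer_instance

instance {n : ℕ} {t : (Fin n → M) → M} [ht : DfT t] : DfT (fun v => ckn (t v)) :=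
  ckn_df.comp1 ht

theorem chk_PF (J x : M) : chk (PF J) x = ckn x := rfl

/-- the name `τ` in the sense of the general theory of forcing -/
noncomputable def vl (τ : M) : M := img τ (fun t => opair (ckn (p2 t)) (p1 t))

theorem vl_df : Fn1 (fun x : M => vl x) := by unfold vl; infer_instance

instance {n : ℕ} {t : (Fin n → M) → M} [ht : DfT t] : DfT (fun v => vl (t v)) := vl_df.comp1 ht

/-! ### isomorphisms -/

/-- the action on the first components of atoms: `emp` is fixed -/
noncomputable def hx (g a : M) : M := the (fun y => (a = emp ∧ y = emp) ∨ (¬ a = emp ∧ y = app g a))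

theorem hx_df : Fn2 (fun g a : M => hx g a) := by unfold hx; infer_instance

instance {n : ℕ} {t s : (Fin n → M) → M} [ht : DfT t] [hs : DfT s] :
    DfT (fun v => hx (t v) (s v)) := hx_df.comp2 ht hs

/-- the action of `g` on conditions -/
noncomputable def act (g p : M) : M := img p (fun a => opair (hx g (p1 a)) (p2 a))

theorem act_df : Fn2 (fun g p : M => act g p) := by unfold act; infer_instance

instance {n : ℕ} {t s : (Fin n → M) → M} [ht : DfT t] [hs : DfT s] :
    DfT (fun v => act (t v) (s v)) := act_df.comp2 ht hs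

/-- the action of `g` on names -/
noncomputable def actn (g τ : M) : M := img τ (fun t => opair (act g (p1 t)) (p2 t))

theorem actn_df : Fn2 (fun g p : M => actn g p) := by unfold actn; infer_instance

instance {n : ℕ} {t s : (Fin n → M) → M} [ht : DfT t] [hs : DfT s] :
    DfT (fun v => actn (t v) (s v)) := actn_df.comp2 ht hs

/-- the image of a set under `g` -/
noncomputable def ig (g B : M) : M := img B (fun d => app g d)

theorem ig_df : Fn2 (fun g B : M => ig g B) := by unfold ig; infer_instance

instance {n : ℕ} {t s : (Fin n → M) → M} [ht : DfT t] [hs : DfT s] :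
    DfT (fun v => ig (t v) (s v)) := ig_df.comp2 ht hs

/-- `g` is an isomorphism from the system `J` to the system `K`. (Rules may be mapped to
labels.) -/
def Iso (g J K : M) : Prop := (∀ e, E e J → E (app g e) K) ∧
  (∀ d, E d K → ∃ e, E e J ∧ app g e = d) ∧
  (∀ e e', E e J → E e' J → app g e = app g e' → e = e') ∧
  (∀ e, E e J → Nc e → Nc (app g e)) ∧
  (∀ e, E e J → bs (app g e) = ig g (bs e)) ∧
  ∀ B r q x i t, E (cod B r q x i t) J → ∃ t', app g (cod B r q x i t) =
    cod (ig g B) (app g r) (act g q) (actn g x) i t'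

theorem Iso_df : Cl3 (fun g J K : M => Iso g J K) := by unfold Iso; infer_instance

instance {n : ℕ} {t s u : (Fin n → M) → M} [ht : DfT t] [hs : DfT s] [hu : DfT u] :
    Df (fun v => Iso (t v) (s v) (u v)) := Iso_df.comp3 ht hs hu

end

end SW.SEP
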