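import Pool.Agent.H93.CT.Sent
import Pool.Agent.H63.SEP.Defs

/-!
Project SEP, definitions, part 2: the statement which is forced, the sets `OO H r` of good codes,
the set `UU H` of all indices; embeddings of models; notions in the generic extension.
-/

set_option linter.unusedVariables false
set_option synthInstance.maxSize 100000

namespace SW.SEP

open SW

/-! ### the statement which is forced -/

section
variable {N : Type} [SetStr N]

/-- `T` (a set of quadruples of finite sequences) puts the point `x` into its Sigma-1-3 set -/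
def PhiR (o T x : N) : Prop := IsPoint o x ∧ ∃ y, IsPoint o y ∧ ∀ w, IsPoint o w →
  ∃ v, IsPoint o v ∧ ∀ n, E n o → ∃ a b c d q r s, IsRestriction a x n ∧ IsRestriction b y n ∧
    IsRestriction c w n ∧ IsRestriction d v n ∧ IsOP q c d ∧ IsOP r b q ∧ IsOP s a r ∧ E s T

/-- `PhiR`, as a property of pairs `(T, x)` in arbitrary structures -/
def QPhi (N : Type) [SetStr N] (v : Fin 2 → N) : Prop := ∃ o, IsOmega o ∧ PhiR o (v 0) (v 1)

instance QPhi_u : UDf QPhi := by
  unfold QPhi PhiR IsPoint; infer_instance

end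

section
variable {M : Type} [SetStr M] [ZF M]

/-- the same statement in models of ZF -/
def Phi (T x : M) : Prop := Fnc om om x ∧ ∃ y, Fnc om om y ∧ ∀ w, Fnc om om w →
  ∃ v, Fnc om om v ∧ ∀ n, E n om →
    E (opair (res x n) (opair (res y n) (opair (res w n) (res v n)))) T

theorem Phi_df : Cl2 (fun T x : M => Phi T x) := by unfold Phi; infer_instance

instance {n : ℕ} {t s : (Fin n → M) → M} [ht : DfT t] [hs : DfT s] :
    Df (fun v => Phi (t v) (s v)) := Phi_df.comp2 ht hs

theorem Df.comp5 {R : M → M → M → M → M → Prop}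
    (h : Df (fun w : Fin 5 → M => R (w 0) (w 1) (w 2) (w 3) (w 4)))
    {n : ℕ} {t s u x y : (Fin n → M) → M} (ht : DfT t) (hs : DfT s) (hu : DfT u) (hx : DfT x)
    (hy : DfT y) : Df (fun v => R (t v) (s v) (u v) (x v) (y v)) := by
  have h1 : Df (fun w : Fin (n + 1) → M => ∀ y' : M, y' = y (fun i => w i.succ) →
      True) := inferInstance
  have h0 : Df (fun v : Fin n → M => ∃ a b c d e : M, a = t v ∧ b = s v ∧ c = u v ∧ d = x v ∧
      e = y v ∧ R a b c d e) := by
    have h2 : Df (fun w : Fin (n + 1 + 1 + 1 + 1 + 1) → M => R (w 4) (w 3) (w 2) (w 1) (w 0)) :=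
      h.ren ![4, 3, 2, 1, 0]
    have ht' : DfT (fun w : Fin (n + 1 + 1 + 1 + 1 + 1) → M =>
      t (fun i => w i.succ.succ.succ.succ.succ)) := ht.ren _
    have hs' : DfT (fun w : Fin (n + 1 + 1 + 1 + 1 + 1) → M =>
      s (fun i => w i.succ.succ.succ.succ.succ)) := hs.ren _
    have hu' : DfT (fun w : Fin (n + 1 + 1 + 1 + 1 + 1) → M =>
      u (fun i => w i.succ.succ.succ.succ.succ)) := hu.ren _
    have hx' : DfT (fun w : Fin (n + 1 + 1 + 1 + 1 + 1) → M =>
      x (fun i => w i.succ.succ.succ.succ.succ)) := hx.ren _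
    have hy' : DfT (fun w : Fin (n + 1 + 1 + 1 + 1 + 1) → M =>
      y (fun i => w i.succ.succ.succ.succ.succ)) := hy.ren _
    have h3 : Df (fun w : Fin (n + 1 + 1 + 1 + 1 + 1) → M =>
      w 4 = t (fun i => w i.succ.succ.succ.succ.succ) ∧
      w 3 = s (fun i => w i.succ.succ.succ.succ.succ) ∧
      w 2 = u (fun i => w i.succ.succ.succ.succ.succ) ∧
      w 1 = x (fun i => w i.succ.succ.succ.succ.succ) ∧
      w 0 = y (fun i => w i.succ.succ.succ.succ.succ) ∧ R (w 4) (w 3) (w 2) (w 1) (w 0)) :=
      inferInstance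
    exact Df.ex (h := Df.ex (h := Df.ex (h := Df.ex (h := Df.ex (h := h3)))))
  exact h0.congr fun v => by simp

/-- the formula `QPhi` -/
noncomputable def fPhi : Fml 2 := Classical.choose QPhi_u.out

theorem fPhi_spec (N : Type) [SetStr N] (v : Fin 2 → N) : QPhi N v ↔ Sat fPhi v :=
  Classical.choose_spec QPhi_u.out N v

/-- the order of `PF J` as a set of pairs -/
noncomputable def LO (J : M) : M :=
  sep (prod (PS J) (PS J)) (fun z => ∃ p q, z = opair p q ∧ Sub q p)

instance {n : ℕ} {t : (Fin n → M) → M} [ht : DfT t] : DfT (fun v => LO (t v)) :=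
  DfT.comp1 (f := fun w => LO w) (by unfold LO; infer_instance) ht

/-- the condition `p` over `J` forces `Phi T x` (`T` and `x` are names over `J`) -/
def SFm (J p T x : M) : Prop := Forces (PS J) (LO J) fPhi p ![vl T, vl x]

theorem SFm_df : Df (fun v : Fin 4 → M => SFm (v 0) (v 1) (v 2) (v 3)) := by
  have h := (Forces_u fPhi).df M
  have h1 : Df (fun w : Fin 5 → M => Forces (w 0) (w 1) fPhi (w 2) ![w 3, w 4]) := by
    refine h.congr fun w => ?_
    have : (![w 3, w 4] : Fin 2 → M) = (fun i => w i.succ.succ.succ) := by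
      funext i
      fin_cases i <;> rfl
    rw [this]
  exact Df.comp5 (R := fun a b c d e => Forces a b fPhi c ![d, e]) h1
    (inferInstance : DfT (fun v : Fin 4 → M => PS (v 0)))
    (inferInstance : DfT (fun v : Fin 4 → M => LO (v 0)))
    (inferInstance : DfT (fun v : Fin 4 → M => v 1))
    (inferInstance : DfT (fun v : Fin 4 → M => vl (v 2)))
    (inferInstance : DfT (fun v : Fin 4 → M => vl (v 3)))

instance {n : ℕ} {t s u x : (Fin n → M) → M} [ht : DfT t] [hs : DfT s] [hu : DfT u]
    [hx : DfT x] : Df (fun v => SFm (t v) (s v) (u v) (x v)) :=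
  SFm_df.comp4 (R := fun a b c d => SFm a b c d) ht hs hu hx

/-! ### recursion along the transitive closure -/

/-- recursion: `trec F x = F x (gr (tc x) (trec F))` -/
noncomputable def trec (F : M → M → M) (x : M) : M :=
  app (mrec (fun x g => ins (opair x (F x (sUn (img x (fun y => app g y)))))
    (sUn (img x (fun y => app g y)))) x) x

instance DfT.trec {n : ℕ} {s : (Fin n → M) → M} {F : M → M → (Fin n → M) → M}
    [hs : DfT s]
    [h : DfT (fun w : Fin (n + 2) → M => F (w 0) (w 1) (fun i => w i.succ.succ))] :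
    DfT (fun v => SEP.trec (fun x y => F x y v) (s v)) := by
  have _ : ∀ (k : ℕ) (r : Fin n → Fin k) (u t : (Fin k → M) → M) [DfT u] [DfT t],
      DfT (fun w : Fin k → M => F (u w) (t w) (fun i => w (r i))) :=
    fun k r u t hu ht => h.comp2v hu ht
  unfold SEP.trec
  infer_instance

theorem trec_df {F : M → M → M} [hF : Fn2 F] : Fn1 (fun x : M => trec F x) :=
  DfT.trec (n := 1) (s := fun w => w 0) (F := fun a b _ => F a b)

/-! ### extensions of systems, types, good codes -/

/-- `J` is a countable system of indices in `H` which extends `I`, and the codes in `J` but not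
in `I` for rules in the base of `r` are good -/
def ExsO (H : M) (O : M → M) (r I J : M) : Prop := Sy J ∧ Cb J ∧ Sub J H ∧ Sub I J ∧
  ∀ B r' q x i t, E (cod B r' q x i t) J → ¬ E (cod B r' q x i t) I → E r' (bs r) → IsR r' →
    E (cod B r' q x i t) (O r')

/-- for the rule `r`, the condition `p` over `I` can be extended, in a system as above, to a
condition which forces that the point `x` is in the second set of the rule -/
def CanO (H : M) (O : M → M) (r I p x : M) : Prop := ∃ J p', ExsO H O r I J ∧ E p' (PS J) ∧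
  Sub p p' ∧ ∃ B T0 T1 t, r = rul B T0 T1 t ∧ SFm J p' T1 x

/-- `e` is a good code for the rule `r` -/
def OkO (H : M) (O : M → M) (r e : M) : Prop := ∃ B q x i t, e = cod B r q x i t ∧
  ((i = emp ∧ ¬ CanO H O r B q x) ∨
    (i = one ∧ ∀ p, E p (PS B) → Sub q p → CanO H O r B p x))

theorem OkO_df : Df (fun v : Fin 4 → M => OkO (v 0) (fun r => app (v 1) r) (v 2) (v 3)) := by
  unfold OkO CanO ExsO
  infer_instance

instance OkO_df' {n : ℕ} {t s u x : (Fin n → M) → M} [ht : DfT t] [hs : DfT s] [hu : DfT u]
    [hx : DfT x] : Df (fun v => OkO (t v) (fun r => app (s v) r) (u v) (x v)) :=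
  OkO_df.comp4 (R := fun a b c d => OkO a (fun r => app b r) c d) ht hs hu hx

/-- the set of good codes for the rule `r` -/
noncomputable def OO (H r : M) : M :=
  trec (fun r g => sep H (fun e => OkO H (fun r' => app g r') r e)) r

theorem OO_df : Fn2 (fun H r : M => OO H r) := by unfold OO; infer_instance

instance {n : ℕ} {t s : (Fin n → M) → M} [ht : DfT t] [hs : DfT s] :
    DfT (fun v => OO (t v) (s v)) := OO_df.comp2 ht hs

theorem CanO_df : Df (fun v : Fin 5 → M => CanO (v 0) (fun r => OO (v 0) r) (v 1) (v 2) (v 3)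
    (v 4)) := by
  unfold CanO ExsO
  infer_instance

/-- a system of indices in `H` in which all codes for rules are good -/
def Good (H J : M) : Prop := Sy J ∧ Sub J H ∧
  ∀ B r q x i t, E (cod B r q x i t) J → IsR r → E (cod B r q x i t) (OO H r)

theorem Good_df : Cl2 (fun H J : M => Good H J) := by unfold Good; infer_instance

instance {n : ℕ} {t s : (Fin n → M) → M} [ht : DfT t] [hs : DfT s] :
    Df (fun v => Good (t v) (s v)) := Good_df.comp2 ht hs

/-- the largest good system -/
noncomputable def UU (H : M) : M := sUn (sep (pow H) (fun J => Good H J))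

/-- `H` is transitive and closed under countable subsets -/
def Hb (H : M) : Prop := Trans H ∧ ∀ a, Sub a H → Cb a → E a H

end

/-! ### embeddings of models -/

/-- `j` is an isomorphism from `K` to a transitive substructure of `N` -/
structure TEmb {K N : Type} [SetStr K] [SetStr N] (j : K → N) : Prop where
  inj : ∀ x y, j x = j y → x = y
  mem : ∀ x y, E (j x) (j y) ↔ E x y
  tr : ∀ z x, E z (j x) → ∃ y, z = j y

/-- every ordinal of `N` is the image of an ordinal of `K` -/
def OrdOnto {K N : Type} [SetStr K] [ZF K] [SetStr N] [ZF N] (j : K → N) : Prop :=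
  ∀ b : N, Ord b → ∃ a : K, Ord a ∧ b = j a

/-- complete embeddings of posets, with projections -/
structure CEmb {M : Type} [SetStr M] [ZF M] (F F' : FPoset M) (h e : M → M) : Prop where
  hdf : Fn1 h
  edf : Fn1 e
  inP : ∀ p, E p F.P → E (h p) F'.P
  mono : ∀ p q, E p F.P → E q F.P → F.le p q → F'.le (h p) (h q)
  one : h F.one = F'.one
  red : ∀ r, E r F'.P → E (e r) F.P ∧ F'.le r (h (e r))
  low : ∀ r p, E r F'.P → E p F.P → F'.le r (h p) → F.le (e r) p
  ama : ∀ r s, E r F'.P → E s F.P → F.le s (e r) → ∃ t, E t F'.P ∧ F'.le t r ∧ F'.le t (h s)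

/-! ### notions in the extension -/

section
variable {M : Type} [SetStr M] [ZF M]

/-- the restriction of the filter `G` to conditions over `J` -/
def Gr (J : M) (G : M → Prop) (p : M) : Prop := E p (PS J) ∧ G p

/-- the generic filter as a member of the extension -/
noncomputable def gg (I : M) (G : M → Prop) : Ext (PF I) G := mk (PF I) G (Gnm (PF I))

/-- the pair `(s, a)` is in the generic relation (`g` is the set of conditions) -/
def InR (g s a : M) : Prop := ∃ p, E p g ∧ E (gR s a one) p

theorem InR_df : Cl3 (fun g s a : M => InR g s a) := by unfold InR; infer_instance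

instance {n : ℕ} {t s u : (Fin n → M) → M} [ht : DfT t] [hs : DfT s] [hu : DfT u] :
    Df (fun v => InR (t v) (s v) (u v)) := InR_df.comp3 ht hs hu

/-- the branch of the index `e` -/
noncomputable def Br (g e : M) : M :=
  sep (prod om LL) (fun z => ∃ p v, E p g ∧ E (lV e v) p ∧ E z v)

theorem Br_df : Fn2 (fun g e : M => Br g e) := by unfold Br; infer_instance

instance {n : ℕ} {t s : (Fin n → M) → M} [ht : DfT t] [hs : DfT s] :
    DfT (fun v => Br (t v) (s v)) := Br_df.comp2 ht hs

/-- the function `u` is captured by the generic relation, for all `z` in `Z` -/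
def Prd (g Z u : M) : Prop := ∀ z, E z Z → ∃ j, E j om ∧ ∀ n, E n om → E j n →
  InR g (res u n) (res z n)

theorem Prd_df : Cl3 (fun g Z u : M => Prd g Z u) := by unfold Prd; infer_instance

instance {n : ℕ} {t s u : (Fin n → M) → M} [ht : DfT t] [hs : DfT s] [hu : DfT u] :
    Df (fun v => Prd (t v) (s v) (u v)) := Prd_df.comp3 ht hs hu

/-- the point `x` is coded on the side `i`, where `b` is the branch of the rule -/
def DDn (g Z b i x : M) : Prop := ∃ u, Fnc om LL u ∧
  (∀ n a, E (opair n a) x → ∃ c' c, E c' om ∧ E c om ∧ E (opair n (cdv a c' i c)) u ∧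
    E (opair n (nonc c')) b) ∧ Prd g Z u

theorem DDn_df : Df (fun v : Fin 5 → M => DDn (v 0) (v 1) (v 2) (v 3) (v 4)) := by
  unfold DDn; infer_instance

end

end SW.SEP
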