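import Pool.Agent.H63.SEP.Defs2

/-!
Project SEP, definitions, part 3: the constructible hierarchy with witnesses in bounded form,
substructures, satisfaction in relational structures, Borel relations between points of the Baire
space.
-/

set_option linter.unusedVariables false
set_option synthInstance.maxSize 100000

namespace SW.SEP

open SW

/-! ### the constructible hierarchy -/

section
variable {N : Type} [SetStr N]

/-- `z` is the value of the Goedel operation number `i` at `x`, `y`, in bounded form -/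
def GV : ℕ → N → N → N → Prop
  | 0, z, x, y => ∀ t, E t z ↔ t = x ∨ t = y
  | 1, z, x, y => (∀ t, E t z → ∃ u v, E u x ∧ E v y ∧ IsOP t u v) ∧
      ∀ u v, E u x → E v y → ∃ t, E t z ∧ IsOP t u v
  | 2, z, x, y => (∀ t, E t z → ∃ u v, E u x ∧ E v y ∧ E u v ∧ IsOP t u v) ∧
      ∀ u v, E u x → E v y → E u v → ∃ t, E t z ∧ IsOP t u v
  | 3, z, x, y => ∀ t, E t z ↔ E t x ∧ ¬ E t y
  | 4, z, x, y => ∀ t, E t z ↔ E t x ∧ E t y
  | 5, z, x, _ => ∀ t, E t z ↔ ∃ u, E u x ∧ E t u
  | 6, z, x, _ => ∀ t, E t z ↔ ∃ s v, E s x ∧ IsOP s t v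
  | 7, z, x, _ => (∀ t, E t z → ∃ s u v, E s x ∧ IsOP s v u ∧ IsOP t u v) ∧
      ∀ s u v, E s x → IsOP s v u → ∃ t, E t z ∧ IsOP t u v
  | 8, z, x, _ => (∀ t, E t z → ∃ s u v w, E s x ∧ IsTriple s u w v ∧ IsTriple t u v w) ∧
      ∀ s u v w, E s x → IsTriple s u w v → ∃ t, E t z ∧ IsTriple t u v w
  | _, z, x, _ => (∀ t, E t z → ∃ s u v w, E s x ∧ IsTriple s v w u ∧ IsTriple t u v w) ∧
      ∀ s u v w, E s x → IsTriple s v w u → ∃ t, E t z ∧ IsTriple t u v w

/-- `d` consists of the members of `c` and the values of the Goedel operations at members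
of `c` -/
def GStep (c d : N) : Prop := (∀ t, E t c → E t d) ∧
  (∀ i : Fin 10, ∀ a b, E a c → E b c → ∃ z, E z d ∧ GV i z a b) ∧
  ∀ z, E z d → E z c ∨ ∃ a b, E a c ∧ E b c ∧ ∃ i : Fin 10, GV i z a b

/-- `o` is the set of natural numbers: a transitive set of transitive sets, with an empty member,
closed under successors, all members of which are empty or successors -/
def IsOm0 (o : N) : Prop := IsOrdinal o ∧ (∃ e, E e o ∧ ∀ t, ¬ E t e) ∧
  (∀ n, E n o → ∃ s, E s o ∧ ∀ t, E t s ↔ E t n ∨ t = n) ∧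
  ∀ n, E n o → (∀ t, ¬ E t n) ∨ ∃ m, ∀ t, E t n ↔ E t m ∨ t = m

/-- `f` is a function on the ordinals `≤ d` -/
def HWf (d f : N) : Prop := (∀ b, (E b d ∨ b = d) → ∃ y, PairIn b y f) ∧
  ∀ b y y', PairIn b y f → PairIn b y' f → y = y'

/-- `g` is a function of pairs (ordinal `< d`, natural number) -/
def HWg (d g o : N) : Prop := (∀ c n, E c d → E n o → ∃ C, TripleIn c n C g) ∧
  ∀ c n C C', TripleIn c n C g → TripleIn c n C' g → C = C'

/-- `g c 0 = f c ∪ {f c}` -/
def HW0 (d f g : N) : Prop := ∀ c n C y, E c d → (∀ t, ¬ E t n) → TripleIn c n C g →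
  PairIn c y f → ∀ t, E t C ↔ E t y ∨ t = y

/-- `g c (n + 1)` is obtained from `g c n` by one step -/
def HWs (d g o : N) : Prop := ∀ c n s C C', E c d → E n o → (∀ t, E t s ↔ E t n ∨ t = n) →
  TripleIn c n C g → TripleIn c s C' g → GStep C C'

/-- `f b` is the set of all `t` which for some `c < b` are in some `g c n` and are subsets
of `f c` -/
def HWl (d f g o : N) : Prop := ∀ b y, (E b d ∨ b = d) → PairIn b y f → ∀ t, E t y ↔
  ∃ c n C u, E c b ∧ E n o ∧ TripleIn c n C g ∧ PairIn c u f ∧ E t C ∧ Incl t u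

/-- `f` is the constructible hierarchy up to `d`, as witnessed by `g` -/
def HW (d f g o : N) : Prop := IsOrdinal d ∧ IsOm0 o ∧ HWf d f ∧ HWg d g o ∧ HW0 d f g ∧
  HWs d g o ∧ HWl d f g o

/-- `z` is in the constructible hierarchy, as witnessed in the structure -/
def Q0 (z : N) : Prop := ∃ d f g o y, HW d f g o ∧ PairIn d y f ∧ E z y

end

theorem IsTriple_u : UDf (fun M _ (w : Fin 4 → M) => IsTriple (w 0) (w 1) (w 2) (w 3)) := by
  unfold IsTriple; infer_instance

instance {n : ℕ} {t s u x : ∀ (M : Type) [SetStr M], (Fin n → M) → M} [UV t] [UV s] [UV u]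
    [UV x] : UDf (fun M _ v => IsTriple (t M v) (s M v) (u M v) (x M v)) :=
  IsTriple_u.comp4 (R := fun _ _ a b c d => IsTriple a b c d) t s u x

theorem GV_u : ∀ i : ℕ, UDf (fun M _ (w : Fin 3 → M) => GV i (w 0) (w 1) (w 2))
  | 0 => by simp only [GV]; infer_instance
  | 1 => by simp only [GV]; infer_instance
  | 2 => by simp only [GV]; infer_instance
  | 3 => by simp only [GV]; infer_instance
  | 4 => by simp only [GV]; infer_instance
  | 5 => by simp only [GV]; infer_instance
  | 6 => by simp only [GV]; infer_instance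
  | 7 => by simp only [GV]; infer_instance
  | 8 => by simp only [GV]; infer_instance
  | _ + 9 => by simp only [GV]; infer_instance

instance {n : ℕ} {i : ℕ} {t s u : ∀ (M : Type) [SetStr M], (Fin n → M) → M} [UV t] [UV s]
    [UV u] : UDf (fun M _ v => GV i (t M v) (s M v) (u M v)) :=
  (GV_u i).comp3 (R := fun _ _ a b c => GV i a b c) t s u

theorem GStep_u : UDf (fun M _ (w : Fin 2 → M) => GStep (w 0) (w 1)) := by
  have h1 : UDf (fun M _ (w : Fin 2 → M) =>
      ∀ i : Fin 10, ∀ a b, E a (w 0) → E b (w 0) → ∃ z, E z (w 1) ∧ GV i z a b) :=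
    UDf.allFin (P := fun (i : Fin 10) M _ (w : Fin 2 → M) =>
      ∀ a b, E a (w 0) → E b (w 0) → ∃ z, E z (w 1) ∧ GV i z a b) fun i => inferInstance
  have h2 : UDf (fun M _ (w : Fin 5 → M) => ∃ i : Fin 10, GV i (w 2) (w 1) (w 0)) :=
    UDf.exFin (P := fun (i : Fin 10) M _ (w : Fin 5 → M) => GV i (w 2) (w 1) (w 0))
      fun i => inferInstance
  have h3 : UDf (fun M _ (w : Fin 2 → M) => ∀ z, E z (w 1) → E z (w 0) ∨
      ∃ a b, E a (w 0) ∧ E b (w 0) ∧ ∃ i : Fin 10, GV i z a b) :=
    UDf.all (P := fun M _ z (w : Fin 2 → M) => E z (w 1) → E z (w 0) ∨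
      ∃ a b, E a (w 0) ∧ E b (w 0) ∧ ∃ i : Fin 10, GV i z a b)
    (h := UDf.imp (hQ := UDf.or (hQ :=
      UDf.ex (P := fun M _ a (w : Fin 3 → M) => ∃ b, E a (w 1) ∧ E b (w 1) ∧
        ∃ i : Fin 10, GV i (w 0) a b)
      (h := UDf.ex (P := fun M _ b (w : Fin 4 → M) => E (w 0) (w 2) ∧ E b (w 2) ∧
        ∃ i : Fin 10, GV i (w 1) (w 0) b)
        (h := UDf.and (hQ := UDf.and (hQ := h2)))))))
  unfold GStep
  exact UDf.and (hQ := UDf.and (hP := h1) (hQ := h3))

instance {n : ℕ} {t s : ∀ (M : Type) [SetStr M], (Fin n → M) → M} [UV t] [UV s] :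
    UDf (fun M _ v => GStep (t M v) (s M v)) :=
  GStep_u.comp2 (R := fun _ _ a b => GStep a b) t s

theorem IsOrdinal_u : UDf (fun M _ (w : Fin 1 → M) => IsOrdinal (w 0)) := by
  unfold IsOrdinal; infer_instance

instance {n : ℕ} {t : ∀ (M : Type) [SetStr M], (Fin n → M) → M} [UV t] :
    UDf (fun M _ v => IsOrdinal (t M v)) :=
  IsOrdinal_u.comp1 (R := fun _ _ a => IsOrdinal a) t

instance Q0_u : UDf (fun M _ (w : Fin 1 → M) => Q0 (w 0)) := by
  unfold Q0 HW IsOm0 HWf HWg HW0 HWs HWl
  infer_instance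

/-- the substructure with domain the set `A` -/
def SubS {N : Type} [SetStr N] (A : N) : Type := {x : N // E x A}

instance {N : Type} [SetStr N] (A : N) : SetStr (SubS A) := ⟨fun x y => E x.1 y.1⟩

/-- satisfaction in the structure with domain `D` and relation `R` -/
def SatR {N : Type} (D : N → Prop) (R : N → N → Prop) : {n : ℕ} → Fml n → (Fin n → N) → Prop
  | _, .mem i j, v => R (v i) (v j)
  | _, .eq i j, v => v i = v j
  | _, .bot, _ => False
  | _, .imp f g, v => SatR D R f v → SatR D R g v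
  | _, .all f, v => ∀ x, D x → SatR D R f (Fin.cons x v)

/-! ### Borel relations -/

section
variable {N : Type} [SetStr N] [ZFC N]

/-- `x`, `x'` are functions from `om` to `om` which agree below `n` -/
def Agr (n x x' : N) : Prop := Fnc om om x ∧ Fnc om om x' ∧ res x n = res x' n

/-- Borel relations of four points: the least class which contains the relations determined by a
finite part of the points and is closed under complements and countable intersections -/
inductive BD : (N → N → N → N → Prop) → Prop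
  | base (R : N → N → N → N → Prop)
      (hR : Df (fun v : Fin 4 → N => R (v 0) (v 1) (v 2) (v 3))) (n : N) (hn : E n om)
      (h : ∀ x y w v x' y' w' v', Agr n x x' → Agr n y y' → Agr n w w' → Agr n v v' →
        (R x y w v ↔ R x' y' w' v')) : BD R
  | neg {R : N → N → N → N → Prop} : BD R → BD (fun x y w v => ¬ R x y w v)
  | all (R : N → N → N → N → N → Prop)
      (hR : Df (fun v : Fin 5 → N => R (v 0) (v 1) (v 2) (v 3) (v 4)))
      (h : ∀ k, E k om → BD (R k)) : BD (fun x y w v => ∀ k, E k om → R k x y w v)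
  | congr {R R' : N → N → N → N → Prop} : BD R →
      (∀ x y w v, Fnc om om x → Fnc om om y → Fnc om om w → Fnc om om v →
        (R x y w v ↔ R' x y w v)) → BD R'

/-- the quintuple of restrictions -/
noncomputable def q5 (n x y w v u : N) : N :=
  opair (res x n) (opair (res y n) (opair (res w n) (opair (res v n) (res u n))))

/-- `R` is the projection of a closed set -/
def Ana (R : N → N → N → N → Prop) : Prop := ∃ T : N, ∀ x y w v, Fnc om om x →
  Fnc om om y → Fnc om om w → Fnc om om v →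
  (R x y w v ↔ ∃ u, Fnc om om u ∧ ∀ n, E n om → E (q5 n x y w v u) T)

/-- uniformly continuous functions of four points -/
def Cn4 (f : N → N → N → N → N) : Prop := DfT (fun v : Fin 4 → N => f (v 0) (v 1) (v 2) (v 3)) ∧
  (∀ x y w v, Fnc om om x → Fnc om om y → Fnc om om w → Fnc om om v →
    Fnc om om (f x y w v)) ∧
  ∀ k, E k om → ∃ n, E n om ∧ ∀ x y w v x' y' w' v', Agr n x x' → Agr n y y' → Agr n w w' →
    Agr n v v' → res (f x y w v) k = res (f x' y' w' v') k

/-- `k` is an injective function from pairs of natural numbers to natural numbers -/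
def Inj2 (k : N) : Prop := (∀ a b, E a om → E b om → E (app k (opair a b)) om) ∧
  ∀ a b a' b', E a om → E b om → E a' om → E b' om →
    app k (opair a b) = app k (opair a' b') → a = a' ∧ b = b'

/-- the structure coded by the point `w`: domain, relation, natural numbers -/
def Dm (k w m : N) : Prop := E m om ∧ E (opair (app k (opair emp m)) emp) w

def Em (k w m m' : N) : Prop := E (opair (app k (opair one (app k (opair m m')))) emp) w

def Nu (k w a m : N) : Prop := E (opair (app k (opair two (app k (opair a m)))) emp) w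

theorem Dm_df : Cl3 (fun a b c : N => Dm a b c) := by unfold Dm; infer_instance

theorem Em_df : Df (fun v : Fin 4 → N => Em (v 0) (v 1) (v 2) (v 3)) := by
  unfold Em; infer_instance

theorem Nu_df : Df (fun v : Fin 4 → N => Nu (v 0) (v 1) (v 2) (v 3)) := by
  unfold Nu; infer_instance

/-- the formula for ordered pairs -/
noncomputable def fOP : Fml 3 := Classical.choose (IsOP_u).out

theorem fOP_spec (K : Type) [SetStr K] (v : Fin 3 → K) : IsOP (v 0) (v 1) (v 2) ↔ Sat fOP v :=
  Classical.choose_spec (IsOP_u).out K v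

/-- `w` codes an extensional structure with natural numbers, in which some `m` represents the
point `z` and satisfies the formula `f` -/
def COk (k : N) (f : Fml 1) (z w : N) : Prop :=
  (∀ m m', Dm k w m → Dm k w m' → (∀ a, Dm k w a → (Em k w a m ↔ Em k w a m')) → m = m') ∧
  (∀ a, E a om → ∃ m, Dm k w m ∧ Nu k w a m) ∧
  (∀ a m, E a om → E m om → Nu k w a m → Dm k w m ∧
    ∀ b, Dm k w b → (Em k w b m ↔ ∃ a', E a' a ∧ Nu k w a' b)) ∧
  ∃ m, Dm k w m ∧ SatR (fun a => Dm k w a) (fun a b => Em k w a b) f ![m] ∧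
    (∀ a, Dm k w a → Em k w a m → ∃ b c b' c', E b om ∧ E c om ∧ E b' om ∧ E c' om ∧
      E (opair b c) z ∧ Nu k w b b' ∧ Nu k w c c' ∧
      SatR (fun a => Dm k w a) (fun a b => Em k w a b) fOP ![a, b', c']) ∧
    ∀ b c, E b om → E c om → E (opair b c) z → ∃ a b' c', Dm k w a ∧ E b' om ∧ E c' om ∧
      Em k w a m ∧ Nu k w b b' ∧ Nu k w c c' ∧
      SatR (fun a => Dm k w a) (fun a b => Em k w a b) fOP ![a, b', c']

/-- `v` is not an infinite descending sequence of the structure coded by `w` -/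
def Wd (k w v : N) : Prop := ∃ n m m', E n om ∧ E (opair n m) v ∧ E (opair (suc n) m') v ∧
  ¬ (Dm k w m ∧ Dm k w m' ∧ Em k w m' m)

/-- `Z` is a set of points and has a Sigma-1-2 definition -/
def ZSig (Z : N) : Prop := (∀ z, E z Z → Fnc om om z) ∧
  ∃ R : N → N → N → N → Prop, BD R ∧ ∀ z, Fnc om om z →
    (E z Z ↔ ∃ w, Fnc om om w ∧ ∀ v, Fnc om om v → R z w v v)

end

end SW.SEP
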