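import Pool.Agent.H63.SEP.Stmts3
import Pool.Agent.H31.CC.CHS

/-!
Project SEP: derivation of the main statement from the statements of the modules.
-/

set_option linter.unusedVariables false
set_option synthInstance.maxSize 100000

namespace SW.SEP

open SW

/-- CHS is in the library -/
theorem sep_chs (hacf : ACFStmt) : CHSStmt := fun M _ _ a R hR h => CC.cc_chs hacf M a R hR h

theorem temb_emb {M : Type} [SetStr M] [ZF M] {F : FPoset M} {G : M → Prop} (hG : Gen F G) :
    TEmb (emb F G) where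
  inj x y h := ((embF hG).inj x y).1 h
  mem x y := (embF hG).mem x y
  tr z x h := by
    obtain ⟨y, _, hy⟩ := (embF hG).trans z x h
    exact ⟨y, hy⟩

theorem sep_main (hHEX : HEXStmt) (hUGD : UGDStmt) (hUIX : UIXStmt) (hTSP : TSPStmt)
    (hSPN : SPNStmt) (hZSG : ZSGStmt) (hORX : ORXStmt) (hNCH : NCHStmt) (hW0 : W0Stmt)
    (hACX : ACXStmt) : MAINStmt := by
  intro M _ _ _ hL K
  obtain ⟨w, hw⟩ := hW0 M
  obtain ⟨H, hH, hKH⟩ := hHEX M (bun K (pow (prod w om)))
  have hU : Sy (UU H) := (hUGD M H).1.1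
  obtain ⟨G, hG, -⟩ := (semF (PF (UU H))).ex emp (mem_PS.2 (Cond_emp _))
  haveI : ZFC (Ext (PF (UU H)) G) := hACX M (PF (UU H)) G hG
  have hlab : ∀ k, E k (bun K (pow (prod w om))) → E (lbl emp k) (UU H) :=
    fun k hk => (hUIX M H hH).1 k (hKH k hk)
  have hN := hNCH M (UU H) (bun K (pow (prod w om))) w G hU hG hlab hw
    (fun x hx => mem_bun.2 (Or.inr hx))
  refine ⟨Ext (PF (UU H)) G, inferInstance, inferInstance, emb (PF (UU H)) G, valF hG, ?_, hN.1,
    hN.2 K (fun x hx => mem_bun.2 (Or.inl hx))⟩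
  exact hSPN _ (gg (UU H) G) (emb (PF (UU H)) G BS)
    (hZSG M _ (emb (PF (UU H)) G) (temb_emb hG) (hORX M (PF (UU H)) G hG) hL)
    (hTSP M H G hH hG)

end SW.SEP
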