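import Pool.Agent.H63.SEP.Defs2

/-!
Project SEP: statements of the modules, parts S (set theory in a model), A (conditions),
I (isomorphisms of systems), U (the universal system).
-/

set_option linter.unusedVariables false
set_option synthInstance.maxSize 100000

namespace SW.SEP

open SW

/-! ## Part S: set theory in a model -/

/-- TREC: the recursion equation -/
def TRECStmt : Prop := ∀ (M : Type) [SetStr M] [ZF M] (F : M → M → M), Fn2 F → ∀ x,
  trec F x = F x (gr (tc x) (trec F))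

/-- CHS: choice for class relations -/
def CHSStmt : Prop := ∀ (M : Type) [SetStr M] [ZFC M] (a : M) (R : M → M → Prop), Cl2 R →
  (∀ x, E x a → ∃ y, R x y) → ∃ g, ∀ x, E x a → R x (app g x)

/-- SQF: facts about functions and finite sequences -/
structure SqFacts (M : Type) [SetStr M] [ZF M] : Prop where
  /-- the domain -/
  fdm : ∀ {a b v : M}, Fnc a b v → dmn v = a
  /-- extensionality -/
  fext : ∀ {a b v b' v' : M}, Fnc a b v → Fnc a b' v' →
    (∀ x y, E (opair x y) v → E (opair x y) v') → v = v'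
  fapp : ∀ {a b v x : M}, Fnc a b v → E x a → E (opair x (app v x)) v ∧ E (app v x) b
  fapp' : ∀ {a b v x y : M}, Fnc a b v → E (opair x y) v → E x a ∧ E y b ∧ app v x = y
  frs : ∀ {a b v c : M}, Fnc a b v → Sub c a → Fnc c b (res v c)
  /-- functions given by class functions -/
  fgr : ∀ {a b : M} (f : M → M), Fn1 f → (∀ x, E x a → E (f x) b) → Fnc a b (gr a f)
  nil : ∀ {A : M}, E emp (SQ A)
  dm : ∀ {A v : M}, E v (SQ A) → E (dmn v) om ∧ Fnc (dmn v) A v
  up : ∀ {A A' v : M}, Sub A A' → E v (SQ A) → E v (SQ A')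
  /-- restrictions of finite sequences -/
  rs : ∀ {A v n : M}, E v (SQ A) → E n om → Sub n (dmn v) → E (res v n) (SQ A) ∧
    dmn (res v n) = n
  /-- restrictions of infinite sequences -/
  rsi : ∀ {A u n : M}, Fnc om A u → E n om → E (res u n) (SQ A) ∧ dmn (res u n) = n
  rself : ∀ {A v : M}, E v (SQ A) → res v (dmn v) = v
  rr : ∀ {v m n : M}, Sub m n → res (res v n) m = res v m
  /-- subsequences are restrictions; `w` is a finite or infinite sequence -/
  sub : ∀ {A u w a : M}, E u (SQ A) → Fnc a A w → Sub u w → Sub (dmn u) a ∧ u = res w (dmn u)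
  cmp : ∀ {A u v w a : M}, E u (SQ A) → E v (SQ A) → Fnc a A w → Sub u w → Sub v w →
    (Sub u v ∨ Sub v u)
  cmpd : ∀ {A u v : M}, E u (SQ A) → E v (SQ A) → Sub u v → (u = v ∨ E (dmn u) (dmn v))
  eqd : ∀ {A u v : M}, E u (SQ A) → E v (SQ A) → Sub u v → dmn u = dmn v → u = v
  /-- adding a value -/
  sxx : ∀ {A v a : M}, E v (SQ A) → E a A → E (sx v a) (SQ A) ∧ dmn (sx v a) = suc (dmn v) ∧
    Sub v (sx v a) ∧ res (sx v a) (dmn v) = v
  /-- initial segments of `sx v a` -/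
  sxs : ∀ {A v a u : M}, E v (SQ A) → E a A → E u (SQ A) → Sub u (sx v a) →
    u = sx v a ∨ Sub u v
  sxr : ∀ {A u n a : M}, Fnc om A u → E n om → E (opair n a) u → res u (suc n) = sx (res u n) a

/-- SQF -/
def SQFStmt : Prop := ∀ (M : Type) [SetStr M] [ZF M], SqFacts M

/-- CTS: countability of sets of finite sequences -/
def CTSStmt : Prop := ∀ (M : Type) [SetStr M] [ZFC M], (∀ A : M, Cb A → Cb (SQ A)) ∧
  Cb (LL : M) ∧ Cb (NDS : M) ∧ Cb (SQ om : M) ∧ Cb (Q4 : M) ∧ Cb (prod om om : M)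

/-- DIA: types of functions from `om` to `om`: some type occurs above all immediate successors
of some finite sequence -/
def DIAStmt : Prop := ∀ (M : Type) [SetStr M] [ZFC M] (X : M) (t : M → M), Fn1 t → Cb X →
  (∀ z, E z BS → E (t z) X) →
  ∃ a s, E a X ∧ E s (SQ om) ∧ ∀ n, E n om → ∃ z, E z BS ∧ Sub (sx s n) z ∧ t z = a

/-- DIK: finitely many successive subsequences -/
def DIKStmt : Prop := ∀ (M : Type) [SetStr M] [ZFC M] (P : M → M → Prop), Cl2 P →
  (∀ k A A', P k A → Sub A' A → P k A') → ∀ K, E K om →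
  (∀ k A, E k K → Sub A om → ¬ Fnt A → ∃ A', Sub A' A ∧ ¬ Fnt A' ∧ P k A') →
  ∀ A, Sub A om → ¬ Fnt A → ∃ A', Sub A' A ∧ ¬ Fnt A' ∧ ∀ k, E k K → P k A'

/-- LIM1: a subsequence of a sequence of elements of `BS` which converges, or which is constant up
to some number and takes infinitely many values at this number: for some `y` in `BS` and every
finite set `F` of finite sequences, almost all members of the subsequence agree with `y` as long
as their restrictions are in `F` -/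
def LIM1Stmt : Prop := ∀ (M : Type) [SetStr M] [ZFC M] (f : M → M), Fn1 f →
  (∀ n, E n om → E (f n) BS) → ∀ A, Sub A om → ¬ Fnt A →
  ∃ A' y, Sub A' A ∧ ¬ Fnt A' ∧ E y BS ∧ ∀ F, Fnt F →
    Fnt (sep A' (fun n => ∃ l, E l om ∧ E (res (f n) l) F ∧ ¬ res y l = res (f n) l))

/-- WFR: recursion on a well-founded relation on a set -/
def WFRStmt : Prop := ∀ (M : Type) [SetStr M] [ZF M] (X : M) (R : M → M → Prop)
  (F : M → M → M), Cl2 R → Fn2 F →
  (∀ a, Sub a X → (∃ x, E x a) → ∃ x, E x a ∧ ∀ y, E y a → ¬ R y x) →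
  ∃ f, ∀ x, E x X → app f x = F x (gr (sep X (fun y => R y x)) (fun y => app f y))

/-- DIC: a relation has an infinite path from `x0`, or a rank function on a set which contains
`x0` and is closed under the relation -/
def DICStmt : Prop := ∀ (M : Type) [SetStr M] [ZFC M] (X x0 : M) (R : M → M → Prop), Cl2 R →
  E x0 X → (∃ f, app f emp = x0 ∧ ∀ n, E n om → E (app f n) X ∧ R (app f n) (app f (suc n))) ∨
  ∃ U r, Sub U X ∧ E x0 U ∧ (∀ x, E x U → Ord (app r x)) ∧
    ∀ x y, E x U → E y X → R x y → E y U ∧ E (app r y) (app r x)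

/-- HEX: there are sets closed under countable subsets above any set -/
def HEXStmt : Prop := ∀ (M : Type) [SetStr M] [ZFC M] (K : M), ∃ H, Hb H ∧ Sub K H

/-- facts about such a set -/
structure HbFacts {M : Type} [SetStr M] [ZF M] (H : M) : Prop where
  opair : ∀ {a b : M}, E a H → E b H → E (opair a b) H
  fst : ∀ {a b : M}, E (SW.opair a b) H → E a H ∧ E b H
  fnt : ∀ {a : M}, Sub a H → Fnt a → E a H
  emp : E emp H
  one : E one H
  two : E two H
  om : E om H ∧ Sub om H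
  SQ : ∀ {A : M}, Sub A H → Sub (SQ A) H
  BS : Sub BS H
  NDS : Sub NDS H
  Q4 : Sub Q4 H
  PS : ∀ {I : M}, Sub I H → Sub (PS I) H
  Nm : ∀ {J X τ : M}, Sub J H → Sub X H → Nm J X τ → E τ H
  lbl : ∀ {B t : M}, E B H → E t H → E (lbl B t) H
  rul : ∀ {B T0 T1 t : M}, E B H → E T0 H → E T1 H → E t H → E (rul B T0 T1 t) H
  cod : ∀ {B r q x i t : M}, E B H → E r H → E q H → E x H → E i H → E t H →
    E (cod B r q x i t) H

/-- HBF -/
def HBFStmt : Prop := ∀ (M : Type) [SetStr M] [ZFC M] (H : M), Hb H → HbFacts H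

/-! ## Part A: conditions -/

/-- ATM: atoms, indices, systems: elementary facts -/
structure AtFacts (M : Type) [SetStr M] [ZF M] : Prop where
  ne01 : (emp : M) ≠ one
  ne02 : (emp : M) ≠ two
  ne12 : (one : M) ≠ two
  mem2 : ∀ {i : M}, E i two ↔ i = emp ∨ i = one
  RR : ∀ {s τ b s' τ' b' : M}, gR s τ b = gR s' τ' b' ↔ s = s' ∧ τ = τ' ∧ b = b'
  VV : ∀ {e v e' v' : M}, lV e v = lV e' v' ↔ e = e' ∧ v = v'
  FF : ∀ {e z j e' z' j' : M}, lF e z j = lF e' z' j' ↔ e = e' ∧ z = z' ∧ j = j'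
  VF : ∀ {e v e' z j : M}, lV e v ≠ lF e' z j
  RV : ∀ {s τ b e v : M}, gR s τ b ≠ lV e v
  RF : ∀ {s τ b e z j : M}, gR s τ b ≠ lF e z j
  /-- a label or rule is not a code, a label is not a rule -/
  nc : ∀ {e : M}, Nc e → ¬ IsC e
  lr : ∀ {e : M}, IsL e → ¬ IsR e
  cd : ∀ {B r q x i t B' r' q' x' i' t' : M}, cod B r q x i t = cod B' r' q' x' i' t' ↔
    B = B' ∧ r = r' ∧ q = q' ∧ x = x' ∧ i = i' ∧ t = t'
  rl : ∀ {B T0 T1 t B' T0' T1' t' : M}, rul B T0 T1 t = rul B' T0' T1' t' ↔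
    B = B' ∧ T0 = T0' ∧ T1 = T1' ∧ t = t'
  lb : ∀ {B t B' t' : M}, lbl B t = lbl B' t' ↔ B = B' ∧ t = t'
  /-- members of systems -/
  sy0 : ∀ {J : M}, Sy J → ¬ E emp J
  sye : ∀ {J e : M}, Sy J → E e J → e ≠ emp ∧ (Nc e ∨ IsC e) ∧ Cb (bs e) ∧ ClB (bs e) ∧
    Sub (bs e) J ∧ Sy (bs e)
  sycd : ∀ {J B r q x i t : M}, Sy J → E (cod B r q x i t) J → Cb B ∧ ClB B ∧ Sub B J ∧ Sy B ∧
    E r B ∧ Nc r ∧ E q (PS B) ∧ Nm B (prod om om) x ∧ Tot B q x ∧ Fun B q x ∧ E i two
  syrl : ∀ {J B T0 T1 t : M}, Sy J → E (rul B T0 T1 t) J → Cb B ∧ ClB B ∧ Sub B J ∧ Sy B ∧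
    Nm B Q4 T0 ∧ Nm B Q4 T1
  /-- closed subsets and unions of systems are systems -/
  sysub : ∀ {J B : M}, Sy J → Sub B J → ClB B → Sy B
  sybun : ∀ {J K : M}, Sy J → Sy K → Sy (bun J K)
  /-- no member of a system is in the transitive closure of its base -/
  nself : ∀ {e : M}, ¬ E e (bs e)

/-- ATM -/
def ATMStmt : Prop := ∀ (M : Type) [SetStr M] [ZF M], AtFacts M

/-- PSF: facts about conditions -/
structure PsFacts (M : Type) [SetStr M] [ZF M] : Prop where
  mono : ∀ {I J p : M}, Sub I J → E p (PS I) → E p (PS J)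
  fnt : ∀ {I p : M}, E p (PS I) → Fnt p
  /-- the kinds of atoms of a condition -/
  gRm : ∀ {I p s τ b : M}, E p (PS I) → E (gR s τ b) p → E s NDS ∧ E τ (SQ om) ∧ E b two
  lVm : ∀ {I p e v : M}, E p (PS I) → E (lV e v) p → E e I ∧ E v NDS
  lFm : ∀ {I p e z j : M}, E p (PS I) → E (lF e z j) p → E e I ∧ E z BS ∧ E j om
  /-- atoms of restrictions -/
  gRr : ∀ {I J p s τ b : M}, E p (PS I) → (E (gR s τ b) (rJ J p) ↔ E (gR s τ b) p)
  lVr : ∀ {I J p e v : M}, Sy I → E p (PS I) → (E (lV e v) (rJ J p) ↔ E (lV e v) p ∧ E e J)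
  lFr : ∀ {I J p e z j : M}, Sy I → E p (PS I) →
    (E (lF e z j) (rJ J p) ↔ E (lF e z j) p ∧ E e J)
  rsub : ∀ {J p : M}, Sub (rJ J p) p
  rmono : ∀ {J p q : M}, Sub p q → Sub (rJ J p) (rJ J q)
  rself : ∀ {I J p : M}, E p (PS I) → Sub I J → rJ J p = p
  /-- restrictions to systems are conditions -/
  rst : ∀ {I J p : M}, Sy I → Sy J → E p (PS I) → E (rJ J p) (PS J)
  /-- amalgamation -/
  ama : ∀ {I J p p' : M}, Sy I → Sy J → E p (PS I) → E p' (PS J) → Sub (rJ J p) p' →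
    E (bun p p') (PS (bun I J))

/-- PSF -/
def PSFStmt : Prop := ∀ (M : Type) [SetStr M] [ZF M], PsFacts M

/-- NOD: adding one node to the branch of an index -/
def NODStmt : Prop := ∀ (M : Type) [SetStr M] [ZF M] (I p e v a : M), Sy I → E p (PS I) →
  E e I → E v NDS → E a LL →
  ((v = emp ∧ ∀ v', ¬ E (lV e v') p) ∨ (E (lV e v) p ∧ ∀ v', E (lV e v') p → Sub v' v)) →
  (Nc e → ∃ c, E c om ∧ a = nonc c) →
  (∀ B r q x i t, e = cod B r q x i t → Sub q p ∧ ∃ a0 c' c, E a0 om ∧ E c' om ∧ E c om ∧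
    a = cdv a0 c' i c ∧ (∃ q', Sub q' p ∧ E (opair q' (opair (dmn v) a0)) x) ∧
    ∃ v', E (lV r v') p ∧ E (opair (dmn v) (nonc c')) v') →
  (∀ τ b, ¬ E (gR (sx v a) τ b) p) →
  ∃ q, E q (PS I) ∧ Sub p q ∧ E (lV e (sx v a)) q ∧
    (∀ e' v', E (lV e' v') q → E (lV e' v') p ∨ (e' = e ∧ v' = sx v a)) ∧
    (∀ e' z j, E (lF e' z j) q → E (lF e' z j) p) ∧
    ∀ s τ b, E (gR s τ b) q → E (gR s τ b) p ∨ (s = sx v a ∧ b = one)

/-- EXN: extending the branch of a label or rule -/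
def EXNStmt : Prop := ∀ (M : Type) [SetStr M] [ZF M] (I p e n : M), Sy I → E p (PS I) → E e I →
  Nc e → E n om → ∃ q v, E q (PS I) ∧ Sub p q ∧ E (lV e v) q ∧ E n (dmn v) ∧
    ∀ e' v', E (lV e' v') q → E (lV e' v') p ∨ e' = e

/-- EXC: extending the branch of a code -/
def EXCStmt : Prop := ∀ (M : Type) [SetStr M] [ZF M] (I p B r q x i t n : M), Sy I →
  E p (PS I) → E (cod B r q x i t) I → Sub q p → E n om →
  ∃ p' v, E p' (PS I) ∧ Sub p p' ∧ E (lV (cod B r q x i t) v) p' ∧ E n (dmn v)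

/-- EXF: adding a promise -/
def EXFStmt : Prop := ∀ (M : Type) [SetStr M] [ZF M] (I p e z : M), Sy I → E p (PS I) → E e I →
  E z BS → ∃ q j, E q (PS I) ∧ Sub p q ∧ E j om ∧ E (lF e z j) q

/-- EXD: the branches of two labels or rules can be made different -/
def EXDStmt : Prop := ∀ (M : Type) [SetStr M] [ZF M] (I p e e' : M), Sy I → E p (PS I) → E e I →
  E e' I → Nc e → Nc e' → e ≠ e' → ∃ q v v' n c c', E q (PS I) ∧ Sub p q ∧ E (lV e v) q ∧
    E (lV e' v') q ∧ E n om ∧ E (opair n (nonc c)) v ∧ E (opair n (nonc c')) v' ∧ c ≠ c'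

/-- CCS: the posets are ccc -/
def CCSStmt : Prop := ∀ (M : Type) [SetStr M] [ZFC M] (I : M), Sy I → CCC (PS I)

/-- RGQ: the amalgamation for the rigidity theorem. The condition `q` extends `p`, the condition
`p'` has the same shape as `p` over the root `R`, the promises for members of `R` in `p'` are
protected by the limits `Y`, the node `s0` is not on the branch of any member of `R`, and
`(s0, z0)` is not mentioned in `q` -/
def RGQStmt : Prop := ∀ (M : Type) [SetStr M] [ZF M] (I R Y p p' q s0 z0 : M), Sy I →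
  E p (PS I) → E p' (PS I) → E q (PS I) → Sub p q → Sub Y BS →
  (∀ s τ b, E (gR s τ b) p' → E (gR s τ b) p) →
  (∀ e x y, e ≠ emp → E (opair e x) p' → E (opair e y) q → E e R) →
  (∀ e v, E e R → (E (lV e v) p' ↔ E (lV e v) p)) →
  (∀ e y, E e R → E y Y → ∃ m, E (lF e y m) q ∧ (m = emp ∨ ∃ v, E (lV e v) p ∧ m = dmn v)) →
  (∀ e z j l s b, E e R → E (lF e z j) p' → E l om → E (gR s (res z l) b) q →
    ∃ y, E y Y ∧ res y l = res z l) →
  E s0 NDS → E z0 (SQ om) → (∀ e v, E e R → E (lV e v) q → ¬ Sub s0 v) →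
  (∀ b, ¬ E (gR s0 z0 b) q) →
  ∃ r, E r (PS I) ∧ Sub q r ∧ Sub p' r ∧ E (gR s0 z0 emp) r

/-- the data of a sequence of conditions of the same shape -/
structure RSeq {M : Type} [SetStr M] [ZF M] (I : M) (F : M → M → M → Prop)
    (A R Y j s f g : M) : Prop where
  A1 : Sub A om
  A2 : ¬ Fnt A
  R1 : Fnt R
  R2 : Sub R I
  Y1 : Fnt Y
  Y2 : Sub Y BS
  j1 : E j om
  s1 : E s (SQ om)
  /-- `app f n` are the conditions, `app g n` the members of `BS` -/
  f1 : ∀ n, E n A → E (app f n) (PS I)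
  g1 : ∀ n, E n A → E (app g n) BS ∧ Sub (sx s n) (app g n)
  F1 : ∀ n, E n A → F (app f n) (app g n) j
  /-- the same values of the generic relation -/
  gl : ∀ n m s τ b, E n A → E m A → E (gR s τ b) (app f n) → E (gR s τ b) (app f m)
  /-- every finite set of indices outside `R` is avoided by almost all members -/
  ix : ∀ D, Fnt D → Fnt (sep A (fun n => ∃ e x, E e D ∧ e ≠ emp ∧ ¬ E e R ∧
    E (opair e x) (app f n)))
  /-- the same nodes at members of `R` -/
  nd : ∀ n m e v, E n A → E m A → E e R → E (lV e v) (app f n) → E (lV e v) (app f m)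
  /-- the limits of the promises -/
  lm : ∀ D, Fnt D → Fnt (sep A (fun n => ∃ e z i l, E (lF e z i) (app f n) ∧
    E l om ∧ E (res z l) D ∧ ∀ y, E y Y → ¬ res y l = res z l))
  /-- a bound for the lengths of nodes -/
  bd : ∃ L, E L om ∧ ∀ n e v, E n A → E (lV e v) (app f n) → E (dmn v) L

/-- the countable part of an atom -/
noncomputable def cpt {M : Type} [SetStr M] [ZF M] (a : M) : M :=
  the (fun c => (∃ s τ b, a = gR s τ b ∧ c = a) ∨ (∃ e v, a = lV e v ∧ c = opair one v) ∨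
    ∃ e z j, a = lF e z j ∧ c = opair two j)

theorem cpt_df {M : Type} [SetStr M] [ZF M] : Fn1 (fun a : M => cpt a) := by
  unfold cpt; infer_instance

instance {M : Type} [SetStr M] [ZF M] {n : ℕ} {t : (Fin n → M) → M} [ht : DfT t] :
    DfT (fun v => cpt (t v)) := cpt_df.comp1 ht

/-- the data of a sequence of conditions of the same type: `app (app h n)` enumerates the atoms
of the condition `app f n` -/
structure RSq0 {M : Type} [SetStr M] [ZF M] (I : M) (F : M → M → M → Prop)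
    (K j s f g h : M) : Prop where
  K1 : E K om
  j1 : E j om
  s1 : E s (SQ om)
  f1 : ∀ n, E n om → E (app f n) (PS I)
  g1 : ∀ n, E n om → E (app g n) BS ∧ Sub (sx s n) (app g n)
  F1 : ∀ n, E n om → F (app f n) (app g n) j
  h1 : ∀ n, E n om → ∀ a, E a (app f n) ↔ ∃ k, E k K ∧ a = app (app h n) k
  ty : ∀ n m k, E n om → E m om → E k K →
    cpt (app (app h n) k) = cpt (app (app h m) k)

/-- RG1: sequences of conditions of the same type -/
def RG1Stmt : Prop := ∀ (M : Type) [SetStr M] [ZFC M] (I : M) (F : M → M → M → Prop), Sy I →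
  Cl3 F → (∀ z, E z BS → ∃ p j, E p (PS I) ∧ E j om ∧ F p z j) →
  ∃ K j s f g h, RSq0 I F K j s f g h

/-- RG2: thinning out -/
def RG2Stmt : Prop := ∀ (M : Type) [SetStr M] [ZFC M] (I : M) (F : M → M → M → Prop)
  (K j s f g h : M), Sy I → RSq0 I F K j s f g h → ∃ A R Y, RSeq I F A R Y j s f g

/-- RGM: the rigidity theorem, in the model. `F p z j` says that `p` forces that all pairs
`(u|n, z|n)` with `j ∈ n` are in the generic relation, `D p n s` says that `p` forces `u|n = s` -/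
def RGMStmt : Prop := ∀ (M : Type) [SetStr M] [ZFC M] (I p0 : M) (F D : M → M → M → Prop),
  Sy I → E p0 (PS I) → Cl3 F → Cl3 D →
  (∀ p q z j, F p z j → E q (PS I) → Sub p q → F q z j) →
  (∀ z, E z BS → ∃ p j, E p (PS I) ∧ Sub p0 p ∧ E j om ∧ F p z j) →
  (∀ p R k, E p (PS I) → Sub p0 p → Fnt R → Sub R I → E k om → ∃ q n s, E q (PS I) ∧ Sub p q ∧
    E n om ∧ E k n ∧ E s NDS ∧ dmn s = n ∧ D q n s ∧ ∀ e v, E e R → E (lV e v) q → ¬ Sub s v) →
  (∀ p q z j n s, E z BS → D q n s → E p (PS I) → Sub q p → F p z j → E j n →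
    ¬ E (gR s (res z n) emp) p) → False

/-! ## Part I: isomorphisms of systems -/

/-- ISO: facts about isomorphisms -/
structure IsoFacts {M : Type} [SetStr M] [ZF M] (g J K : M) : Prop where
  act_in : ∀ {p : M}, E p (PS J) → E (act g p) (PS K)
  act_sub : ∀ {p q : M}, E p (PS J) → E q (PS J) → (Sub (act g p) (act g q) ↔ Sub p q)
  act_sur : ∀ {q : M}, E q (PS K) → ∃ p, E p (PS J) ∧ act g p = q
  act_inj : ∀ {p q : M}, E p (PS J) → E q (PS J) → act g p = act g q → p = q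
  act_emp : act g emp = emp
  act_bun : ∀ {p q : M}, act g (bun p q) = bun (act g p) (act g q)
  /-- atoms -/
  gRa : ∀ {p s τ b : M}, E p (PS J) → (E (gR s τ b) (act g p) ↔ E (gR s τ b) p)
  lVa : ∀ {p e v : M}, E p (PS J) → E e J → (E (lV (app g e) v) (act g p) ↔ E (lV e v) p)
  lFa : ∀ {p e z j : M}, E p (PS J) → E e J → (E (lF (app g e) z j) (act g p) ↔ E (lF e z j) p)
  /-- the inverse -/
  inv : ∃ g', Iso g' K J ∧ (∀ e, E e J → app g' (app g e) = e) ∧
    (∀ d, E d K → app g (app g' d) = d) ∧ (∀ p, E p (PS J) → act g' (act g p) = p) ∧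
    (∀ q, E q (PS K) → act g (act g' q) = q) ∧
    (∀ X τ, Nm J X τ → actn g' (actn g τ) = τ) ∧ ∀ B, Sub B J → ig g' (ig g B) = B
  /-- the restriction to a subsystem -/
  sub : ∀ {B : M}, Sy B → Sub B J → Iso g B (ig g B) ∧ Sy (ig g B) ∧ Sub (ig g B) K
  nm : ∀ {X τ : M}, Nm J X τ → Nm K X (actn g τ)
  /-- parts on which `g` is the identity -/
  idp : ∀ {B p : M}, Sub B J → (∀ e, E e B → app g e = e) → E p (PS B) → act g p = p
  idn : ∀ {B X τ : M}, Sub B J → (∀ e, E e B → app g e = e) → Nm B X τ → actn g τ = τ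
  rJa : ∀ {B p : M}, Sy B → Sub B J → E p (PS J) → act g (rJ B p) = rJ (ig g B) (act g p)

/-- ACG: actions of functions which agree -/
def ACGStmt : Prop := ∀ (M : Type) [SetStr M] [ZF M] (g g' B : M),
  (∀ e, E e B → app g e = app g' e) → (∀ p, E p (PS B) → ¬ E emp B → act g p = act g' p) ∧
  (∀ X τ, Nm B X τ → ¬ E emp B → actn g τ = actn g' τ) ∧ ig g B = ig g' B

/-- ISI: the inverse -/
def ISIStmt : Prop := ∀ (M : Type) [SetStr M] [ZF M] (g J K : M), Sy J → Sy K → Iso g J K →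
  ∃ g', Iso g' K J ∧ (∀ e, E e J → app g' (app g e) = e) ∧ ∀ d, E d K → app g (app g' d) = d

/-- ISF -/
def ISFStmt : Prop := ∀ (M : Type) [SetStr M] [ZF M] (g J K : M), Sy J → Sy K → Iso g J K →
  IsoFacts g J K

/-- RNM: renaming the part of a system outside a subsystem -/
def RNMStmt : Prop := ∀ (M : Type) [SetStr M] [ZFC M] (H g B1 B2 J1 C : M), Hb H → Sy B1 →
  Sy B2 → Sy J1 → Iso g B1 B2 → Sub B1 J1 → Cb J1 → Sub J1 H → Sub B2 C → Cb C → Sub C H →
  ∃ g' J2, Iso g' J1 J2 ∧ Sy J2 ∧ Cb J2 ∧ Sub J2 H ∧ Sub B2 J2 ∧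
    (∀ e, E e B1 → app g' e = app g e) ∧ (∀ e, E e J2 → E e C → E e B2) ∧
    ∀ e, E e J1 → ¬ E e B1 → Nc e → IsL (app g' e)

/-- OEQ: the sets of good codes -/
def OEQStmt : Prop := ∀ (M : Type) [SetStr M] [ZF M] (H r e : M),
  E e (OO H r) ↔ E e H ∧ OkO H (fun r' => OO H r') r e

/-- FMI (forcing and isomorphisms), as a property of the model; it is proved for countable
models -/
def FIso (M : Type) [SetStr M] [ZF M] : Prop := ∀ g J K p T x : M, Sy J → Sy K → Iso g J K →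
  Nm J Q4 T → Nm J (prod om om) x → E p (PS J) → SFm J p T x →
  SFm K (act g p) (actn g T) (actn g x)

/-- types for the rule `r` are invariant under isomorphisms which are the identity on the base of
the rule -/
def InvAt {M : Type} [SetStr M] [ZF M] (H r : M) : Prop := ∀ (g B1 B2 p x : M), Sy B1 → Sy B2 →
  Cb B1 → Cb B2 → Sub B1 H → Sub B2 H → Iso g B1 B2 → E r B1 → E r B2 → app g r = r →
  (∀ e, E e (bs r) → app g e = e) → E p (PS B1) → Nm B1 (prod om om) x →
  CanO H (fun r' => OO H r') r B1 p x → CanO H (fun r' => OO H r') r B2 (act g p) (actn g x)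

theorem InvAt_df {M : Type} [SetStr M] [ZF M] : Cl2 (fun H r : M => InvAt H r) := by
  unfold InvAt CanO ExsO
  infer_instance

/-- OKI: good codes are invariant if types are -/
def OKIStmt : Prop := ∀ (M : Type) [SetStr M] [ZFC M] (H r : M), Hb H → IsR r → InvAt H r →
  ∀ (g B1 B2 q x i t t' : M), Sy B1 → Sy B2 → Sub B1 H → Sub B2 H → Iso g B1 B2 →
  app g r = r → (∀ e, E e (bs r) → app g e = e) → LVC (cod B1 r q x i t) →
  LVC (cod B2 r (act g q) (actn g x) i t') → E (cod B2 r (act g q) (actn g x) i t') H →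
  E (cod B1 r q x i t) (OO H r) → E (cod B2 r (act g q) (actn g x) i t') (OO H r)

/-- INV: types are invariant -/
def INVStmt : Prop := ∀ (M : Type) [SetStr M] [ZFC M], FIso M → ∀ (H : M), Hb H →
  ∀ r, IsR r → InvAt H r

/-- EXR: a correct extension can be made disjoint from a given countable set -/
def EXRStmt : Prop := ∀ (M : Type) [SetStr M] [ZFC M], FIso M → ∀ (H : M), Hb H →
  ∀ (r B J C : M), IsR r → E r B → Sy B → Cb B → Sub B H → ExsO H (fun r' => OO H r') r B J →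
  Sub B C → Cb C → Sub C H →
  ∃ g J', Iso g J J' ∧ (∀ e, E e B → app g e = e) ∧ ExsO H (fun r' => OO H r') r B J' ∧
    ∀ e, E e J' → E e C → E e B

/-! ## Part U: the universal system -/

/-- UGD: `UU H` is the largest good system -/
def UGDStmt : Prop := ∀ (M : Type) [SetStr M] [ZF M] (H : M), Good H (UU H) ∧
  ∀ J, Good H J → Sub J (UU H)

/-- UIX: labels, rules, codes in `UU H` -/
def UIXStmt : Prop := ∀ (M : Type) [SetStr M] [ZFC M] (H : M), Hb H →
  (∀ k, E k H → E (lbl emp k) (UU H)) ∧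
  (∀ B T0 T1 t, Sub B (UU H) → Cb B → ClB B → Nm B Q4 T0 → Nm B Q4 T1 → E t H →
    E (rul B T0 T1 t) (UU H)) ∧
  ∀ B r q x i t, Sub B (UU H) → E (cod B r q x i t) H → LVC (cod B r q x i t) →
    (IsR r → OkO H (fun r' => OO H r') r (cod B r q x i t)) → E (cod B r q x i t) (UU H)

/-- CLC: closing off -/
def CLCStmt : Prop := ∀ (M : Type) [SetStr M] [ZFC M] (I c : M), Sy I → Sub c I → Cb c →
  ∃ C, Sub c C ∧ Sub C I ∧ Cb C ∧ Sy C

/-- SUP: supports of conditions and names -/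
def SUPStmt : Prop := ∀ (M : Type) [SetStr M] [ZFC M] (I : M), Sy I →
  (∀ p, E p (PS I) → ∃ c, Cb c ∧ Sub c I ∧ ∀ C, Sub c C → E p (PS C)) ∧
  ∀ X τ, Nm I X τ → ∃ c, Cb c ∧ Sub c I ∧ ∀ C, Sub c C → Nm C X τ

/-- CNV: converting a countable system which is good for the rules in the base of `r` into a
subsystem of `UU H`, without changing the base of `r`, and disjoint from `C` otherwise -/
def CNVStmt : Prop := ∀ (M : Type) [SetStr M] [ZFC M], FIso M → ∀ (H : M), Hb H →
  ∀ (r K C : M), E r (UU H) → IsR r → Sy K → Cb K → Sub K H → Sub (bs r) K →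
  (∀ B r' q x i t, E (cod B r' q x i t) K → E r' (bs r) → IsR r' →
    E (cod B r' q x i t) (OO H r')) →
  Sub (bs r) C → Cb C → Sub C H →
  ∃ g K', Iso g K K' ∧ Sy K' ∧ Cb K' ∧ Sub K' (UU H) ∧ (∀ e, E e (bs r) → app g e = e) ∧
    ∀ e, E e K' → E e C → E e (bs r)

end SW.SEP
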