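import Pool.Agent.H63.SEP.Stmts

/-!
Project SEP: statements of the modules, parts E (embeddings of extensions), B (absoluteness),
C (consequences of ccc), G (generic branches), T (the separation theorem in the extension).
-/

set_option linter.unusedVariables false
set_option synthInstance.maxSize 100000

namespace SW.SEP

open SW

/-! ## Part E: embeddings of models and extensions -/

/-- facts about transitive embeddings of models of ZF -/
structure TEFacts {K N : Type} [SetStr K] [ZF K] [SetStr N] [ZF N] (j : K → N) : Prop where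
  mem' : ∀ {z : N} {x : K}, E z (j x) ↔ ∃ y, E y x ∧ z = j y
  opair : ∀ {a b : K}, j (opair a b) = opair (j a) (j b)
  upair : ∀ {a b : K}, j (upair a b) = upair (j a) (j b)
  sing : ∀ {a : K}, j (sing a) = sing (j a)
  emp : j emp = emp
  ins : ∀ {a b : K}, j (ins a b) = ins (j a) (j b)
  suc : ∀ {a : K}, j (suc a) = suc (j a)
  bun : ∀ {a b : K}, j (bun a b) = bun (j a) (j b)
  om : j om = om
  one : j one = one
  two : j two = two
  prod : ∀ {a b : K}, j (prod a b) = prod (j a) (j b)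
  sub : ∀ {a b : K}, Sub (j a) (j b) ↔ Sub a b
  res : ∀ {a b : K}, j (res a b) = res (j a) (j b)
  dmn : ∀ {a : K}, j (dmn a) = dmn (j a)
  app : ∀ {a b : K}, j (app a b) = app (j a) (j b)
  ord : ∀ {a : K}, Ord (j a) ↔ Ord a
  fnc : ∀ {a b v : K}, Fnc (j a) (j b) (j v) ↔ Fnc a b v
  sx : ∀ {a b : K}, j (sx a b) = sx (j a) (j b)
  nonc : ∀ {c : K}, j (nonc c) = nonc (j c)
  cdv : ∀ {a c' i c : K}, j (cdv a c' i c) = cdv (j a) (j c') (j i) (j c)
  LL : j LL = LL
  gR : ∀ {s τ b : K}, j (gR s τ b) = gR (j s) (j τ) (j b)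
  lV : ∀ {e v : K}, j (lV e v) = lV (j e) (j v)
  lF : ∀ {e z i : K}, j (lF e z i) = lF (j e) (j z) (j i)

/-- TEF -/
def TEFStmt : Prop := ∀ (K N : Type) [SetStr K] [ZF K] [SetStr N] [ZF N] (j : K → N), TEmb j →
  TEFacts j

/-- facts about finite sets and sequences -/
structure TGFacts {K N : Type} [SetStr K] [ZF K] [SetStr N] [ZF N] (j : K → N) : Prop where
  fnt : ∀ {a : K}, Fnt (j a) ↔ Fnt a
  /-- finite subsets -/
  fsub : ∀ {a : K} {b : N}, Fnt b → Sub b (j a) → ∃ b', Fnt b' ∧ Sub b' a ∧ b = j b'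
  SQ : ∀ {a : K}, j (SQ a) = SQ (j a)
  NDS : j NDS = NDS
  Q4 : j Q4 = Q4

/-- TEG -/
def TEGStmt : Prop := ∀ (K N : Type) [SetStr K] [ZF K] [SetStr N] [ZF N] (j : K → N), TEmb j →
  TGFacts j

/-- EMX: the embedding of extensions given by a complete embedding of posets -/
def EMXStmt : Prop := ∀ (M : Type) [SetStr M] [ZF M] (F F' : FPoset M) (h e : M → M),
  CEmb F F' h e → ∀ G', Gen F' G' → Gen F (fun p => E p F.P ∧ G' (h p)) ∧
  ∃ j : Ext F (fun p => E p F.P ∧ G' (h p)) → Ext F' G', TEmb j ∧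
    ∀ x, j (emb F _ x) = emb F' G' x

/-- ORX: the ordinals of an extension are those of the model -/
def ORXStmt : Prop := ∀ (M : Type) [SetStr M] [ZF M] (F : FPoset M) (G : M → Prop), Gen F G →
  ∀ [ZF (Ext F G)], OrdOnto (emb F G)

/-- VLX: members of the values of names -/
def VLXStmt : Prop := ∀ (M : Type) [SetStr M] [ZF M] (J X τ : M) (G : M → Prop),
  Nm J X τ → ∀ (K : M), Gen (PF K) G →
  ∀ z, E z (mk (PF K) G (vl τ)) ↔ ∃ q a, E (opair q a) τ ∧ G q ∧ z = emb (PF K) G a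

/-- CEJ: complete embeddings for subsystems -/
def CEJStmt : Prop := ∀ (M : Type) [SetStr M] [ZF M] (J K : M), Sy J → Sy K → Sub J K →
  CEmb (PF J) (PF K) (fun p => p) (fun p => rJ J p)

/-- CEI: complete embeddings for isomorphisms -/
def CEIStmt : Prop := ∀ (M : Type) [SetStr M] [ZF M] (g J K : M), Sy J → Sy K → Iso g J K →
  ∃ g', Iso g' K J ∧ CEmb (PF J) (PF K) (fun p => act g p) (fun p => act g' p)

/-- SBX: the extension by a subsystem is a submodel of the extension -/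
def SBXStmt : Prop := ∀ (M : Type) [SetStr M] [ZF M] (J K : M) (G : M → Prop), Sy J → Sy K →
  Sub J K → Gen (PF K) G → Gen (PF J) (Gr J G) ∧
  ∀ [ZF (Ext (PF K) G)] [ZF (Ext (PF J) (Gr J G))],
    ∃ j : Ext (PF J) (Gr J G) → Ext (PF K) G, TEmb j ∧
      (∀ x, j (emb _ _ x) = emb _ _ x) ∧ OrdOnto j ∧
      ∀ X τ, Nm J X τ → j (mk (PF J) (Gr J G) (vl τ)) = mk (PF K) G (vl τ)

/-- ISX: the same for isomorphisms -/
def ISXStmt : Prop := ∀ (M : Type) [SetStr M] [ZF M] (g J K : M) (G : M → Prop), Sy J → Sy K →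
  Iso g J K → Gen (PF K) G → Gen (PF J) (fun p => E p (PS J) ∧ G (act g p)) ∧
  ∀ [ZF (Ext (PF K) G)] [ZF (Ext (PF J) (fun p => E p (PS J) ∧ G (act g p)))],
    ∃ j : Ext (PF J) (fun p => E p (PS J) ∧ G (act g p)) → Ext (PF K) G, TEmb j ∧
      (∀ x, j (emb _ _ x) = emb _ _ x) ∧ OrdOnto j ∧
      ∀ X τ, Nm J X τ → j (mk (PF J) _ (vl τ)) = mk (PF K) G (vl (actn g τ))

/-! ## Part B: absoluteness and forcing of `Phi` -/

/-- TRQ: translation -/
def TRQStmt : Prop := ∀ (N : Type) [SetStr N] [ZF N] (T x : N), QPhi N ![T, x] ↔ Phi T x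

/-- BRG: absoluteness of the existence of infinite paths -/
def BRGStmt : Prop := ∀ (K N : Type) [SetStr K] [ZFC K] [SetStr N] [ZFC N] (j : K → N), TEmb j →
  ∀ (X x0 : K) (R : K → K → Prop) (R' : N → N → Prop), Cl2 R →
  (∀ a b, E a X → E b X → R' (j a) (j b) → R a b) → E x0 X →
  (∃ f : N, app f emp = j x0 ∧ ∀ n, E n om → E (app f n) (j X) ∧
    R' (app f n) (app f (suc n))) →
  ∃ f : K, app f emp = x0 ∧ ∀ n, E n om → E (app f n) X ∧ R (app f n) (app f (suc n))

/-- BRP: a tree of finite sequences of natural numbers in `K` with a branch in `N` has a branch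
in `K` -/
def BRPStmt : Prop := ∀ (K N : Type) [SetStr K] [ZFC K] [SetStr N] [ZFC N] (j : K → N), TEmb j →
  ∀ T : K, (∃ v : N, Fnc om om v ∧ ∀ n, E n om → E (res v n) (j T)) →
  ∃ v : K, Fnc om om v ∧ ∀ n, E n om → E (res v n) T

section
variable {M : Type} [SetStr M] [ZF M]

/-- `c` enumerates the finite sequences of natural numbers -/
def EnSQ (c : M) : Prop := (∀ k, E k om → E (app c k) (SQ om)) ∧
  ∀ s, E s (SQ om) → ∃ k, E k om ∧ app c k = s

/-- the quadruple of restrictions to `m` -/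
noncomputable def q4 (m x y w v : M) : M :=
  opair (res x m) (opair (res y m) (opair (res w m) (res v m)))

/-- `rho` is an attempt to give ranks to the finite sequences `v` such that the quadruples of
restrictions of `x`, `y`, `a`, `v` are in `T` -/
def AttP (T x y c a ρ : M) : Prop := dmn a = dmn ρ ∧ ∀ k l, E k (dmn a) → E l (dmn a) →
  Sub (dmn (app c l)) (dmn a) → Sub (app c k) (app c l) →
  dmn (app c l) = suc (dmn (app c k)) →
  (∀ m, E m om → Sub m (dmn (app c l)) → E (q4 m x y a (app c l)) T) →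
  E (app ρ l) (app ρ k)

/-- one step in the tree of attempts -/
def AttR (T x y c s t : M) : Prop := ∃ a ρ a' ρ', s = opair a ρ ∧ t = opair a' ρ' ∧ Sub a a' ∧
  Sub ρ ρ' ∧ dmn a' = suc (dmn a) ∧ dmn ρ' = suc (dmn ρ) ∧ AttP T x y c a' ρ'

/-- a path through the tree of attempts with ranks in `d` -/
def AttB (T x y c d : M) : Prop := ∃ f, app f emp = opair emp emp ∧ ∀ n, E n om →
  E (app f n) (prod (SQ om) (SQ d)) ∧ AttR T x y c (app f n) (app f (suc n))

/-- `v` is a witness -/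
def Wit (T x y w v : M) : Prop := Fnc om om v ∧ ∀ n, E n om → E (q4 n x y w v) T

theorem AttR_df : Df (fun v : Fin 6 → M => AttR (v 0) (v 1) (v 2) (v 3) (v 4) (v 5)) := by
  unfold AttR AttP q4; infer_instance

theorem Wit_df : Df (fun v : Fin 5 → M => Wit (v 0) (v 1) (v 2) (v 3) (v 4)) := by
  unfold Wit q4; infer_instance

end

/-- SH1: a path through the tree of attempts gives a point `w` without witness -/
def SH1Stmt : Prop := ∀ (M : Type) [SetStr M] [ZFC M] (T x y c d : M), EnSQ c → Ord d →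
  Fnc om om x → Fnc om om y → AttB T x y c d → ∃ w, Fnc om om w ∧ ¬ ∃ v, Wit T x y w v

/-- SH2: a point without witness gives a path through the tree of attempts -/
def SH2Stmt : Prop := ∀ (M : Type) [SetStr M] [ZFC M] (T x y c w : M), EnSQ c →
  Fnc om om x → Fnc om om y → Fnc om om w → (¬ ∃ v, Wit T x y w v) →
  ∃ d, Ord d ∧ AttB T x y c d

/-- SHO: Shoenfield absoluteness, upwards -/
def SHOStmt : Prop := ∀ (K N : Type) [SetStr K] [ZFC K] [SetStr N] [ZFC N] (j : K → N), TEmb j →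
  OrdOnto j → ∀ T x : K, Phi T x → Phi (j T) (j x)

/-- FRX: the forcing relation for `Phi` -/
def FRXStmt : Prop := ∀ (M : Type) [SetStr M] [ZFC M] [Countable M] (J p T x : M),
  E p (PS J) → (SFm J p T x ↔ ∀ G, Gen (PF J) G → G p → ∀ [ZF (Ext (PF J) G)],
    Phi (mk (PF J) G (vl T)) (mk (PF J) G (vl x)))

/-- TRU: the truth lemma for `Phi` -/
def TRUStmt : Prop := ∀ (M : Type) [SetStr M] [ZFC M] [Countable M] (J T x : M) (G : M → Prop),
  Gen (PF J) G → ∀ [ZF (Ext (PF J) G)], Phi (mk (PF J) G (vl T)) (mk (PF J) G (vl x)) →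
  ∃ p, G p ∧ SFm J p T x

/-- UPW: forcing over a subsystem -/
def UPWStmt : Prop := ∀ (M : Type) [SetStr M] [ZFC M] [Countable M] (J K p T x : M), Sy J →
  Sy K → Sub J K → Nm J Q4 T → Nm J (prod om om) x → E p (PS J) → SFm J p T x → SFm K p T x

/-- MOF: monotonicity -/
def MOFStmt : Prop := ∀ (M : Type) [SetStr M] [ZFC M] [Countable M] (J p q T x : M),
  E p (PS J) → E q (PS J) → Sub p q → SFm J p T x → SFm J q T x

/-- FMI: forcing and isomorphisms -/
def FMIStmt : Prop := ∀ (M : Type) [SetStr M] [ZFC M] [Countable M], FIso M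

/-- NAM: countable names for subsets of countable sets of the model -/
def NAMStmt : Prop := ∀ (M : Type) [SetStr M] [ZFC M] [Countable M] (I X : M) (G : M → Prop),
  Sy I → Gen (PF I) G → Cb X → ∀ [ZFC (Ext (PF I) G)], ∀ a : Ext (PF I) G,
  Sub a (emb (PF I) G X) → ∃ τ, Nm I X τ ∧ a = mk (PF I) G (vl τ)

/-- RFL: reflection of `Phi` to countable subsystems -/
def RFLStmt : Prop := ∀ (M : Type) [SetStr M] [ZFC M] [Countable M] (I T x c : M)
  (G : M → Prop), Sy I → Gen (PF I) G → Nm I Q4 T → Nm I (prod om om) x → Sub c I → Cb c →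
  ∀ [ZFC (Ext (PF I) G)], Phi (mk (PF I) G (vl T)) (mk (PF I) G (vl x)) →
  ∃ C, Sub c C ∧ Sub C I ∧ Sy C ∧ Cb C ∧ Nm C Q4 T ∧ Nm C (prod om om) x ∧
    ∃ p, E p (PS C) ∧ G p ∧ SFm C p T x

/-! ## Part C: consequences of ccc -/

/-- CVX: countable sets of the extension are covered by countable sets of the model -/
def CVXStmt : Prop := ∀ (M : Type) [SetStr M] [ZFC M] [Countable M] (I : M) (G : M → Prop),
  Sy I → Gen (PF I) G → ∀ [ZFC (Ext (PF I) G)],
  ∀ (X : M) (a : Ext (PF I) G), Cb a → Sub a (emb _ G X) → ∃ c : M, Cb c ∧ Sub a (emb _ G c)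

/-- WXX: the first uncountable ordinal is preserved -/
def WXXStmt : Prop := ∀ (M : Type) [SetStr M] [ZFC M] [Countable M] (I w : M) (G : M → Prop),
  Sy I → Gen (PF I) G → IsW w → ∀ [ZFC (Ext (PF I) G)], IsW (emb (PF I) G w)

/-- NIJ: the power set of `w × om` is not mapped injectively to `w` in the extension -/
def NIJStmt : Prop := ∀ (M : Type) [SetStr M] [ZFC M] [Countable M] (I w : M) (G : M → Prop),
  Sy I → Gen (PF I) G → IsW w → ∀ [ZFC (Ext (PF I) G)], ¬ ∃ f : Ext (PF I) G,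
    (∀ a, E a (emb (PF I) G (pow (prod w om))) → ∃ b, E b (emb (PF I) G w) ∧
      E (opair a b) f) ∧
    ∀ a a' b, E a (emb (PF I) G (pow (prod w om))) → E a' (emb (PF I) G (pow (prod w om))) →
      E (opair a b) f → E (opair a' b) f → a = a'

/-- RLS: many subsets of `om` in the extension -/
def RLSStmt : Prop := ∀ (M : Type) [SetStr M] [ZFC M] [Countable M] (I K : M) (G : M → Prop),
  Sy I → Gen (PF I) G → (∀ k, E k K → E (lbl emp k) I) → ∀ [ZFC (Ext (PF I) G)],
  ∃ f : Ext (PF I) G, (∀ a, E a (emb (PF I) G K) → ∃ x, Sub x om ∧ E (opair a x) f) ∧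
    ∀ a a' x, E a (emb (PF I) G K) → E a' (emb (PF I) G K) → E (opair a x) f →
      E (opair a' x) f → a = a'

/-- NCH: many subsets of `om`, and the continuum hypothesis fails -/
def NCHStmt : Prop := ∀ (M : Type) [SetStr M] [ZFC M] [Countable M] (I K w : M)
  (G : M → Prop), Sy I → Gen (PF I) G → (∀ k, E k K → E (lbl emp k) I) → IsW w →
  Sub (pow (prod w om)) K → ∀ [ZFC (Ext (PF I) G)],
  ¬ ContinuumHypothesis (Ext (PF I) G) ∧ ∀ K0, Sub K0 K → ContinuumAtLeast (emb (PF I) G K0)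

/-! ## Part G: branches -/

/-- members of the generic filter, of the generic relation, of branches -/
structure GgFacts {M : Type} [SetStr M] [ZF M] (I : M) (G : M → Prop)
    [ZF (Ext (PF I) G)] : Prop where
  gg : ∀ {p : Ext (PF I) G}, E p (gg I G) ↔ ∃ p0, G p0 ∧ p = emb (PF I) G p0
  inr : ∀ {s τ : M}, InR (SEP.gg I G) (emb (PF I) G s) (emb (PF I) G τ) ↔
    ∃ p, G p ∧ E (gR s τ one) p
  br : ∀ {e : M} {z : Ext (PF I) G}, E z (Br (SEP.gg I G) (emb (PF I) G e)) ↔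
    ∃ p v z0, G p ∧ E (lV e v) p ∧ E z0 v ∧ z = emb (PF I) G z0
  brs : ∀ {e p v : M}, G p → E (lV e v) p →
    Sub (emb (PF I) G v) (Br (SEP.gg I G) (emb (PF I) G e))
  brn : ∀ {e n : M}, Fnc om LL (Br (SEP.gg I G) (emb (PF I) G e)) → E n om →
    ∃ p v, G p ∧ E (lV e v) p ∧ Sub n (dmn v) ∧
      res (Br (SEP.gg I G) (emb (PF I) G e)) (emb (PF I) G n) = emb (PF I) G (res v n)
  mo : ∀ {z : Ext (PF I) G}, E z om → ∃ n, E n om ∧ z = emb (PF I) G n

/-- GGX -/
def GGXStmt : Prop := ∀ (M : Type) [SetStr M] [ZFC M] [Countable M] (I : M) (G : M → Prop),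
  Sy I → Gen (PF I) G → ∀ [ZFC (Ext (PF I) G)], GgFacts I G

section
variable {N : Type} [SetStr N]

/-- `InR`, in arbitrary structures -/
def InRU (g s a : N) : Prop := ∃ p t x y w i0 i1 i2, E p g ∧ E t p ∧ IsOP t i0 x ∧
  IsOP x i2 y ∧ IsOP y s w ∧ IsOP w a i1 ∧ (∀ z, ¬ E z i0) ∧ (∀ z, E z i1 ↔ z = i0) ∧
  ∀ z, E z i2 ↔ z = i0 ∨ z = i1

/-- the pairs `(u|n, z|n)` with `j ∈ n` are in the generic relation -/
def QCap (N : Type) [SetStr N] (v : Fin 4 → N) : Prop := ∃ o, IsOmega o ∧ ∀ n, E n o →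
  E (v 3) n → ∃ a b, IsRestriction a (v 1) n ∧ IsRestriction b (v 2) n ∧ InRU (v 0) a b

/-- `v 0 = res (v 1) (v 2)` -/
def QRes (N : Type) [SetStr N] (v : Fin 3 → N) : Prop := IsRestriction (v 0) (v 1) (v 2)

/-- `v 1` is captured, for all `z` in `v 2` -/
def QPrd (N : Type) [SetStr N] (v : Fin 3 → N) : Prop := ∀ z, E z (v 2) → ∃ o j, IsOmega o ∧
  E j o ∧ ∀ n, E n o → E j n → ∃ a b, IsRestriction a (v 1) n ∧ IsRestriction b z n ∧
    InRU (v 0) a b

/-- `v 1` is different from the branches of all `e` in `v 2` -/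
def QNbr (N : Type) [SetStr N] (v : Fin 3 → N) : Prop := ∀ e, E e (v 2) → ∃ z,
  ¬ (E z (v 1) ↔ ∃ p w t x i0, E p (v 0) ∧ E t p ∧ IsOP t e x ∧ IsOP x i0 w ∧
    (∀ z, ¬ E z i0) ∧ E z w)

instance QCap_u : UDf QCap := by unfold QCap InRU; infer_instance

instance QRes_u : UDf QRes := by unfold QRes; infer_instance

instance QPrd_u : UDf QPrd := by unfold QPrd InRU; infer_instance

instance QNbr_u : UDf QNbr := by unfold QNbr; infer_instance

end

/-- UQX: translations -/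
def UQXStmt : Prop := ∀ (N : Type) [SetStr N] [ZF N],
  (∀ g s a : N, InRU g s a ↔ InR g s a) ∧
  (∀ g u z j : N, QCap N ![g, u, z, j] ↔ ∀ n, E n om → E j n → InR g (res u n) (res z n)) ∧
  (∀ a u n : N, QRes N ![a, u, n] ↔ a = res u n) ∧
  (∀ g u Z : N, QPrd N ![g, u, Z] ↔ Prd g Z u) ∧
  ∀ g u I : N, QNbr N ![g, u, I] ↔ ∀ e, E e I → ∃ z, ¬ (E z u ↔ ∃ p w, E p g ∧
    E (lV e w) p ∧ E z w)

/-- GB1: branches of labels and rules -/
def GB1Stmt : Prop := ∀ (M : Type) [SetStr M] [ZFC M] [Countable M] (I e : M) (G : M → Prop),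
  Sy I → Gen (PF I) G → E e I → Nc e → ∀ [ZFC (Ext (PF I) G)],
  Fnc om LL (Br (gg I G) (emb _ G e)) ∧
    ∀ n a, E (opair n a) (Br (gg I G) (emb _ G e)) → ∃ c, E c om ∧ a = nonc c

/-- GVL: the point named in a code is a function -/
def GVLStmt : Prop := ∀ (M : Type) [SetStr M] [ZFC M] [Countable M] (I B r q x i t : M)
  (G : M → Prop), Sy I → Gen (PF I) G → E (cod B r q x i t) I → G q →
  ∀ [ZFC (Ext (PF I) G)], Fnc om om (mk (PF I) G (vl x))

/-- GB2: branches of codes -/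
def GB2Stmt : Prop := ∀ (M : Type) [SetStr M] [ZFC M] [Countable M] (I B r q x i t : M)
  (G : M → Prop), Sy I → Gen (PF I) G → E (cod B r q x i t) I → ∀ [ZFC (Ext (PF I) G)],
  (∀ z, E z (Br (gg I G) (emb _ G (cod B r q x i t))) → G q) ∧
  (G q → Fnc om LL (Br (gg I G) (emb _ G (cod B r q x i t))) ∧
    ∀ n a, E (opair n a) (Br (gg I G) (emb _ G (cod B r q x i t))) → ∃ a0 c' c,
      a = cdv a0 c' (emb _ G i) c ∧ E c om ∧ E c' om ∧ E (opair n a0) (mk (PF I) G (vl x)) ∧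
      E (opair n (nonc c')) (Br (gg I G) (emb _ G r)))

/-- GB4: branches are captured by the generic relation, for all `z` in the model -/
def GB4Stmt : Prop := ∀ (M : Type) [SetStr M] [ZFC M] [Countable M] (I e : M) (G : M → Prop),
  Sy I → Gen (PF I) G → E e I → ∀ [ZFC (Ext (PF I) G)],
  Fnc om LL (Br (gg I G) (emb _ G e)) →
  Prd (gg I G) (emb _ G BS) (Br (gg I G) (emb _ G e))

/-- GB5: different labels or rules have different branches -/
def GB5Stmt : Prop := ∀ (M : Type) [SetStr M] [ZFC M] [Countable M] (I e e' : M)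
  (G : M → Prop), Sy I → Gen (PF I) G → E e I → E e' I → Nc e → Nc e' → e ≠ e' →
  ∀ [ZFC (Ext (PF I) G)], Br (gg I G) (emb _ G e) ≠ Br (gg I G) (emb _ G e')

/-- RIG: all captured functions are branches -/
def RIGStmt : Prop := ∀ (M : Type) [SetStr M] [ZFC M] [Countable M] (I : M) (G : M → Prop),
  Sy I → Gen (PF I) G → ∀ [ZFC (Ext (PF I) G)], ∀ u, Fnc om LL u →
  Prd (gg I G) (emb _ G BS) u → ∃ e, E e I ∧ u = Br (gg I G) (emb _ G e)

/-- GDC: decoding -/
def GDCStmt : Prop := ∀ (M : Type) [SetStr M] [ZFC M] [Countable M] (I r i : M) (G : M → Prop),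
  Sy I → Gen (PF I) G → E r I → Nc r → E i two → ∀ [ZFC (Ext (PF I) G)],
  ∀ x, Fnc om om x → DDn (gg I G) (emb _ G BS) (Br (gg I G) (emb _ G r)) (emb _ G i) x →
  ∃ B q τ t, E (cod B r q τ i t) I ∧ G q ∧ x = mk (PF I) G (vl τ)

/-- GEC: encoding -/
def GECStmt : Prop := ∀ (M : Type) [SetStr M] [ZFC M] [Countable M] (I B r q τ i t : M)
  (G : M → Prop), Sy I → Gen (PF I) G → E (cod B r q τ i t) I → G q →
  ∀ [ZFC (Ext (PF I) G)], DDn (gg I G) (emb _ G BS) (Br (gg I G) (emb _ G r)) (emb _ G i)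
    (mk (PF I) G (vl τ))

/-! ## Part T: the separation theorem in the extension -/

section
variable {M : Type} [SetStr M] [ZFC M]

/-- the point `x` of the extension by `UU H` is coded on the side `i` for the rule `r` -/
def DDr (H : M) (G : M → Prop) (r i : M) (x : Ext (PF (UU H)) G) [ZFC (Ext (PF (UU H)) G)] :
    Prop :=
  DDn (gg (UU H) G) (emb _ G BS) (Br (gg (UU H) G) (emb _ G r)) (emb _ G i) x

end

/-- TCV: every point is coded on some side -/
def TCVStmt : Prop := ∀ (M : Type) [SetStr M] [ZFC M] [Countable M] (H r : M) (G : M → Prop),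
  Hb H → E r (UU H) → IsR r → Gen (PF (UU H)) G → ∀ [ZFC (Ext (PF (UU H)) G)],
  ∀ x, Fnc om om x → DDr H G r emp x ∨ DDr H G r one x

/-- TC1: points in the second set are not coded on the side `emp` -/
def TC1Stmt : Prop := ∀ (M : Type) [SetStr M] [ZFC M] [Countable M] (H B T0 T1 t : M)
  (G : M → Prop), Hb H → E (rul B T0 T1 t) (UU H) → Gen (PF (UU H)) G →
  ∀ [ZFC (Ext (PF (UU H)) G)], ∀ x : Ext (PF (UU H)) G, Phi (mk (PF (UU H)) G (vl T1)) x →
  ¬ DDr H G (rul B T0 T1 t) emp x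

/-- TC2: if the two sets are disjoint then points in the first set are not coded on the
side `one` -/
def TC2Stmt : Prop := ∀ (M : Type) [SetStr M] [ZFC M] [Countable M] (H B T0 T1 t : M)
  (G : M → Prop), Hb H → E (rul B T0 T1 t) (UU H) → Gen (PF (UU H)) G →
  ∀ [ZFC (Ext (PF (UU H)) G)], (∀ x : Ext (PF (UU H)) G,
    ¬ (Phi (mk (PF (UU H)) G (vl T0)) x ∧ Phi (mk (PF (UU H)) G (vl T1)) x)) →
  ∀ x : Ext (PF (UU H)) G, Phi (mk (PF (UU H)) G (vl T0)) x →
    ¬ DDr H G (rul B T0 T1 t) one x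

/-- TC3: no point is coded on both sides -/
def TC3Stmt : Prop := ∀ (M : Type) [SetStr M] [ZFC M] [Countable M] (H B T0 T1 t : M)
  (G : M → Prop), Hb H → E (rul B T0 T1 t) (UU H) → Gen (PF (UU H)) G →
  ∀ [ZFC (Ext (PF (UU H)) G)], ∀ x, Fnc om om x →
  ¬ (DDr H G (rul B T0 T1 t) emp x ∧ DDr H G (rul B T0 T1 t) one x)

/-- TSP: separation of two disjoint sets given by `T0`, `T1` -/
def TSPStmt : Prop := ∀ (M : Type) [SetStr M] [ZFC M] [Countable M] (H : M) (G : M → Prop),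
  Hb H → Gen (PF (UU H)) G → ∀ [ZFC (Ext (PF (UU H)) G)], ∀ T0 T1 : Ext (PF (UU H)) G,
  (∀ x, ¬ (Phi T0 x ∧ Phi T1 x)) →
  ∃ b, ∀ x, Fnc om om x →
    (DDn (gg (UU H) G) (emb _ G BS) b emp x ∨ DDn (gg (UU H) G) (emb _ G BS) b one x) ∧
    ¬ (DDn (gg (UU H) G) (emb _ G BS) b emp x ∧ DDn (gg (UU H) G) (emb _ G BS) b one x) ∧
    (Phi T0 x → DDn (gg (UU H) G) (emb _ G BS) b emp x) ∧
    (Phi T1 x → DDn (gg (UU H) G) (emb _ G BS) b one x)

end SW.SEP
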