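import Pool.Agent.H63.SEP.Stmts2
import Pool.Agent.H63.SEP.Defs3

/-!
Project SEP: statements of the modules, parts L (constructibility), N (normal forms), and the
main statement.
-/

set_option linter.unusedVariables false
set_option synthInstance.maxSize 100000

namespace SW.SEP

open SW

/-! ## Part L: constructible points -/

/-- ABH: the hierarchy with witnesses is absolute for transitive substructures (which need not
satisfy any axiom) -/
def ABHStmt : Prop := ∀ (K N : Type) [SetStr K] [SetStr N] (j : K → N), TEmb j →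
  (∀ d f g o : K, HW (j d) (j f) (j g) (j o) ↔ HW d f g o) ∧
  ∀ a b R : K, PairIn (j a) (j b) (j R) ↔ PairIn a b R

/-- GVQ: the values of the Goedel operations -/
def GVQStmt : Prop := ∀ (M : Type) [SetStr M] [ZF M],
  (∀ z x y : M, IsGoedelValue z x y ↔ ∃ i : Fin 10, GV i z x y) ∧
  ∀ (i : ℕ) (x y : M), ∃ z, GV i z x y ∧ ∀ z', GV i z' x y → z' = z

/-- OMQ: `IsOm0` defines the set of natural numbers -/
def OMQStmt : Prop := ∀ (M : Type) [SetStr M] [ZF M] (o : M),
  (IsOm0 o ↔ o = om) ∧ (IsOmega o ↔ o = om) ∧ ∀ d : M, IsOrdinal d ↔ Ord d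

/-- HWE: existence of the hierarchy -/
def HWEStmt : Prop := ∀ (M : Type) [SetStr M] [ZF M] (d : M), Ord d → ∃ f g, HW d f g om

/-- HWU: uniqueness of the hierarchy -/
def HWUStmt : Prop := ∀ (M : Type) [SetStr M] [ZF M] (d f g o d' f' g' o' b y y' : M),
  HW d f g o → HW d' f' g' o' → (E b d ∨ b = d) → (E b d' ∨ b = d') → PairIn b y f →
  PairIn b y' f' → y = y'

/-- HWV: under the axiom of constructibility every set is in the hierarchy with witnesses -/
def HWVStmt : Prop := ∀ (M : Type) [SetStr M] [ZF M], AxiomOfConstructibility M →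
  ∀ z : M, Q0 z

/-- LSK: the Loewenheim-Skolem theorem in a model, for one formula -/
def LSKStmt : Prop := ∀ (M : Type) [SetStr M] [ZFC M] (n : ℕ) (f : Fml n) (A c : M), Sub c A →
  Cb c → (∃ x, E x A) → ∃ X, Sub c X ∧ Sub X A ∧ Cb X ∧ ∀ v : Fin n → M, (∀ i, E (v i) X) →
    (SatR (fun x => E x X) (fun x y => E x y) f v ↔
      SatR (fun x => E x A) (fun x y => E x y) f v)

/-- MOS: the Mostowski collapse -/
def MOSStmt : Prop := ∀ (M : Type) [SetStr M] [ZFC M] (X : M) (R : M → M → Prop), Cl2 R →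
  (∀ a, Sub a X → (∃ x, E x a) → ∃ x, E x a ∧ ∀ y, E y a → ¬ R y x) →
  (∀ x y, E x X → E y X → (∀ z, E z X → (R z x ↔ R z y)) → x = y) →
  ∃ c A, Trans A ∧ (∀ x, E x X → E (app c x) A) ∧ (∀ a, E a A → ∃ x, E x X ∧ app c x = a) ∧
    (∀ x y, E x X → E y X → app c x = app c y → x = y) ∧
    ∀ x y, E x X → E y X → (R x y ↔ E (app c x) (app c y))

/-- SRI: satisfaction is invariant under isomorphisms onto substructures -/
def SRIStmt : Prop := ∀ (N : Type) [SetStr N] (D : N → Prop) (R : N → N → Prop) (A : N)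
  (c : N → N), (∀ x, D x → E (c x) A) → (∀ a, E a A → ∃ x, D x ∧ c x = a) →
  (∀ x y, D x → D y → c x = c y → x = y) → (∀ x y, D x → D y → (R x y ↔ E (c x) (c y))) →
  ∀ (n : ℕ) (f : Fml n) (v : Fin n → N) (hv : ∀ i, D (v i)) (h : ∀ i, E (c (v i)) A),
    (SatR D R f v ↔ Sat (M := SubS A) f (fun i => ⟨c (v i), h i⟩))

/-- QLS: points of a model of constructibility are in countable transitive structures with
witnesses -/
def QLSStmt : Prop := ∀ (M : Type) [SetStr M] [ZFC M], (∀ z : M, Q0 z) → ∀ z : M,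
  Fnc om om z → ∃ A, Trans A ∧ Cb A ∧ ∃ h : E z A, Q0 (N := SubS A) ⟨z, h⟩

/-- QUP: members of transitive structures with witnesses are in the ground model -/
def QUPStmt : Prop := ∀ (M N : Type) [SetStr M] [ZFC M] [SetStr N] [ZFC N] (i : M → N),
  TEmb i → OrdOnto i → ∀ (A z : N) (h : E z A), Trans A →
  Q0 (N := SubS A) ⟨z, h⟩ →
  ∃ z0, z = i z0

/-! ## Part N: normal forms -/

/-- BDB: relations determined by a finite part of the points -/
def BDBStmt : Prop := ∀ (N : Type) [SetStr N] [ZFC N] (R : N → N → N → N → Prop),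
  Df (fun v : Fin 4 → N => R (v 0) (v 1) (v 2) (v 3)) → ∀ n, E n om →
  (∀ x y w v x' y' w' v', Agr n x x' → Agr n y y' → Agr n w w' → Agr n v v' →
    (R x y w v ↔ R x' y' w' v')) → Ana R

/-- BDI: countable intersections -/
def BDIStmt : Prop := ∀ (N : Type) [SetStr N] [ZFC N] (R : N → N → N → N → N → Prop),
  Df (fun v : Fin 5 → N => R (v 0) (v 1) (v 2) (v 3) (v 4)) →
  (∀ k, E k om → Ana (R k)) → Ana (fun x y w v => ∀ k, E k om → R k x y w v)

/-- BDU: countable unions -/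
def BDUStmt : Prop := ∀ (N : Type) [SetStr N] [ZFC N] (R : N → N → N → N → N → Prop),
  Df (fun v : Fin 5 → N => R (v 0) (v 1) (v 2) (v 3) (v 4)) →
  (∀ k, E k om → Ana (R k)) → Ana (fun x y w v => ∃ k, E k om ∧ R k x y w v)

/-- BDD: Borel relations are projections of closed sets, and so are their complements -/
def BDDStmt : Prop := ∀ (N : Type) [SetStr N] [ZFC N] (R : N → N → N → N → Prop), BD R →
  Ana R ∧ Ana (fun x y w v => ¬ R x y w v)

/-- BDS: continuous substitution into Borel relations -/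
def BDSStmt : Prop := ∀ (N : Type) [SetStr N] [ZFC N] (R : N → N → N → N → Prop)
  (f1 f2 f3 f4 : N → N → N → N → N), BD R → Cn4 f1 → Cn4 f2 → Cn4 f3 → Cn4 f4 →
  BD (fun x y w v => R (f1 x y w v) (f2 x y w v) (f3 x y w v) (f4 x y w v))

/-- BDF: Boolean operations and existential quantification over natural numbers -/
def BDFStmt : Prop := ∀ (N : Type) [SetStr N] [ZFC N],
  (∀ P Q : N → N → N → N → Prop, Df (fun v : Fin 4 → N => P (v 0) (v 1) (v 2) (v 3)) →
    Df (fun v : Fin 4 → N => Q (v 0) (v 1) (v 2) (v 3)) → BD P → BD Q →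
    BD (fun x y w v => P x y w v ∧ Q x y w v) ∧ BD (fun x y w v => P x y w v ∨ Q x y w v) ∧
    BD (fun x y w v => P x y w v → Q x y w v) ∧
    BD (fun x y w v => (P x y w v ↔ Q x y w v))) ∧
  (∀ P : Prop, BD (fun _ _ _ _ : N => P)) ∧
  ∀ R : N → N → N → N → N → Prop, Df (fun v : Fin 5 → N => R (v 0) (v 1) (v 2) (v 3) (v 4)) →
    (∀ k, E k om → BD (R k)) → BD (fun x y w v => ∃ k, E k om ∧ R k x y w v)

/-- F13: from normal forms to Sigma-1-3 sets -/
def F13Stmt : Prop := ∀ (N : Type) [SetStr N] [ZFC N] (R : N → N → N → N → Prop) (A : N),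
  Ana R → (∀ x, E x A ↔ Fnc om om x ∧ ∃ y, Fnc om om y ∧ ∀ w, Fnc om om w →
    ∃ v, Fnc om om v ∧ R x y w v) → IsSigma13 om A

/-- TRE: from Sigma-1-3 sets to trees -/
def TREStmt : Prop := ∀ (N : Type) [SetStr N] [ZFC N] (A : N), IsSigma13 om A →
  ∃ T, ∀ x, E x A ↔ Phi T x

/-- IN2: pairing functions -/
def IN2Stmt : Prop := ∀ (N : Type) [SetStr N] [ZFC N], ∃ k : N, Inj2 k

/-- SRB: satisfaction in the structure coded by the second point is Borel -/
def SRBStmt : Prop := ∀ (N : Type) [SetStr N] [ZFC N] (k : N), Inj2 k →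
  ∀ (n : ℕ) (f : Fml n) (v : Fin n → N), (∀ i, E (v i) om) →
  BD (fun x y w u => SatR (fun a => Dm k y a) (fun a b => Em k y a b) f v)

/-- COB: `COk` and `Wd` are Borel -/
def COBStmt : Prop := ∀ (N : Type) [SetStr N] [ZFC N] (k : N) (f : Fml 1), Inj2 k →
  BD (fun x y w v => COk k f x y) ∧ BD (fun x y w v => Wd k y v)

/-- CO1: coding countable transitive sets by points -/
def CO1Stmt : Prop := ∀ (N : Type) [SetStr N] [ZFC N] (k : N) (f : Fml 1), Inj2 k →
  ∀ z A : N, Fnc om om z → Trans A → Cb A → ∀ h : E z A, Sat (M := SubS A) f ![⟨z, h⟩] →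
  ∃ w, Fnc om om w ∧ COk k f z w ∧ ∀ v, Fnc om om v → Wd k w v

/-- CO2: decoding -/
def CO2Stmt : Prop := ∀ (N : Type) [SetStr N] [ZFC N] (k : N) (f : Fml 1), Inj2 k →
  ∀ z w : N, Fnc om om z → Fnc om om w → COk k f z w → (∀ v, Fnc om om v → Wd k w v) →
  ∃ A, Trans A ∧ Cb A ∧ ∃ h : E z A, Sat (M := SubS A) f ![⟨z, h⟩]

/-- ZSG: the set of points of a ground model of constructibility has a Sigma-1-2 definition -/
def ZSGStmt : Prop := ∀ (M N : Type) [SetStr M] [ZFC M] [SetStr N] [ZFC N] (i : M → N),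
  TEmb i → OrdOnto i → AxiomOfConstructibility M → ZSig (i BS)

/-- DBN: the sets of points coded on a side have Sigma-1-3 normal forms -/
def DBNStmt : Prop := ∀ (N : Type) [SetStr N] [ZFC N] (g Z b i : N), ZSig Z →
  ∃ R : N → N → N → N → Prop, BD R ∧ ∀ x, Fnc om om x → (DDn g Z b i x ↔
    ∃ y, Fnc om om y ∧ ∀ w, Fnc om om w → ∃ v, Fnc om om v ∧ R x y w v)

/-- SPN: the separation property from `TSP` -/
def SPNStmt : Prop := ∀ (N : Type) [SetStr N] [ZFC N] (g Z : N), ZSig Z →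
  (∀ T0 T1 : N, (∀ x, ¬ (Phi T0 x ∧ Phi T1 x)) → ∃ b, ∀ x, Fnc om om x →
    (DDn g Z b emp x ∨ DDn g Z b one x) ∧ ¬ (DDn g Z b emp x ∧ DDn g Z b one x) ∧
    (Phi T0 x → DDn g Z b emp x) ∧ (Phi T1 x → DDn g Z b one x)) →
  Sigma13Separation N

/-! ## The main statement -/

/-- MAIN -/
def MAINStmt : Prop := ∀ (M : Type) [SetStr M] [ZFC M] [Countable M],
  AxiomOfConstructibility M → ∀ K : M, ∃ (N : Type) (_ : SetStr N) (_ : ZFC N) (i : M → N),
    IsGenExt i ∧ Sigma13Separation N ∧ ¬ ContinuumHypothesis N ∧ ContinuumAtLeast (i K)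

end SW.SEP
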